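import Pool.Agent.Helper1.TuranDef

namespace Pool.Agent.Helper1.Turan

open Finset Filter Topology

theorem card_le_choose {k n : ℕ} {G : Finset (Finset (Fin n))} (hG : IsKGraph k n G) :
    G.card ≤ n.choose k := by
  have h : G ⊆ (univ : Finset (Fin n)).powersetCard k := by
    intro e he
    rw [mem_powersetCard]
    exact ⟨subset_univ _, hG e he⟩
  simpa using card_le_card h

theorem exSet_bddAbove (k m n : ℕ) : BddAbove {t : ℕ | ∃ G : Finset (Finset (Fin n)),
    IsKGraph k n G ∧ CompleteFree k m n G ∧ G.card = t} := by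
  refine ⟨n.choose k, ?_⟩
  rintro t ⟨G, h1, _, rfl⟩
  exact card_le_choose h1

theorem card_le_exNum {k m n : ℕ} {G : Finset (Finset (Fin n))} (h1 : IsKGraph k n G)
    (h2 : CompleteFree k m n G) : G.card ≤ exNum k m n :=
  le_csSup (exSet_bddAbove k m n) ⟨G, h1, h2, rfl⟩

theorem exists_exNum {k m n : ℕ} (hkm : k ≤ m) :
    ∃ G : Finset (Finset (Fin n)), IsKGraph k n G ∧ CompleteFree k m n G ∧
      G.card = exNum k m n := by
  have hne : {t : ℕ | ∃ G : Finset (Finset (Fin n)),
    IsKGraph k n G ∧ CompleteFree k m n G ∧ G.card = t}.Nonempty := by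
    refine ⟨0, ∅, ?_, ?_, rfl⟩
    · intro e he; simp at he
    · intro S hS
      obtain ⟨e, he, hc⟩ := exists_subset_card_eq (s := S) (n := k) (by omega)
      exact ⟨e, he, hc, by simp⟩
  exact Nat.sSup_mem hne (exSet_bddAbove k m n)

theorem exNum_le_choose {k m n : ℕ} (hkm : k ≤ m) : exNum k m n ≤ n.choose k := by
  obtain ⟨G, h1, _, h3⟩ := exists_exNum (n := n) hkm
  rw [← h3]; exact card_le_choose h1

/-- restriction of `G` to the complement of the vertex `v`, moved to `Fin n` -/
noncomputable def del {n : ℕ} (G : Finset (Finset (Fin (n+1)))) (v : Fin (n+1)) :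
    Finset (Finset (Fin n)) :=
  univ.filter (fun e => e.map (Fin.succAboveEmb v) ∈ G)

theorem del_isKGraph {k n : ℕ} {G : Finset (Finset (Fin (n+1)))} (hG : IsKGraph k (n+1) G)
    (v : Fin (n+1)) : IsKGraph k n (del G v) := by
  intro e he
  simp only [del, mem_filter, mem_univ, true_and] at he
  have := hG _ he
  simpa using this

theorem del_completeFree {k m n : ℕ} {G : Finset (Finset (Fin (n+1)))}
    (hG : CompleteFree k m (n+1) G) (v : Fin (n+1)) : CompleteFree k m n (del G v) := by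
  intro S hS
  obtain ⟨e, he, hc, hn⟩ := hG (S.map (Fin.succAboveEmb v)) (by simpa using hS)
  obtain ⟨e', he', rfl⟩ := subset_map_iff.1 he
  refine ⟨e', he', by simpa using hc, ?_⟩
  simp only [del, mem_filter, mem_univ, true_and]
  exact hn

theorem card_del {n : ℕ} (G : Finset (Finset (Fin (n+1)))) (v : Fin (n+1)) :
    (del G v).card = (G.filter (fun e => v ∉ e)).card := by
  have h : (del G v).map (mapEmbedding (Fin.succAboveEmb v)).toEmbedding
      = G.filter (fun e => v ∉ e) := by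
    ext e
    simp only [Finset.mem_map, mem_filter, del, mem_univ, true_and]
    constructor
    · rintro ⟨e', h1, rfl⟩
      refine ⟨h1, ?_⟩
      simp [mapEmbedding_apply, Fin.succAbove_ne]
    · rintro ⟨h1, h2⟩
      have : e ⊆ (univ : Finset (Fin n)).map (Fin.succAboveEmb v) := by
        intro x hx
        simp only [Finset.mem_map, mem_univ, true_and]
        have hxv : x ≠ v := by rintro rfl; exact h2 hx
        obtain ⟨y, hy⟩ := Fin.exists_succAbove_eq hxv
        exact ⟨y, hy⟩
      obtain ⟨e', _, rfl⟩ := subset_map_iff.1 this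
      exact ⟨e', h1, rfl⟩
  rw [← h, card_map]

theorem sum_card_del {k n : ℕ} {G : Finset (Finset (Fin (n+1)))} (hG : IsKGraph k (n+1) G) :
    ∑ v, (del G v).card = (n + 1 - k) * G.card := by
  simp only [card_del]
  have h1 : ∀ v : Fin (n+1), (G.filter (fun e => v ∉ e)).card = ∑ e ∈ G, if v ∉ e then 1 else 0 := by
    intro v; rw [card_filter]
  simp only [h1]
  rw [sum_comm]
  have h2 : ∀ e ∈ G, (∑ v : Fin (n+1), if v ∉ e then 1 else 0) = n + 1 - k := by
    intro e he
    rw [← card_filter]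
    have : (univ.filter (fun v => v ∉ e)) = eᶜ := by ext; simp
    rw [this, card_compl, hG e he]; simp
  rw [sum_congr rfl h2]
  simp [mul_comm]

theorem exNum_succ {k m n : ℕ} (hkm : k ≤ m) :
    (n + 1 - k) * exNum k m (n+1) ≤ (n + 1) * exNum k m n := by
  obtain ⟨G, h1, h2, h3⟩ := exists_exNum (n := n+1) hkm
  rw [← h3, ← sum_card_del h1]
  calc ∑ v, (del G v).card ≤ ∑ v : Fin (n+1), exNum k m n :=
        sum_le_sum (fun v _ => card_le_exNum (del_isKGraph h1 v) (del_completeFree h2 v))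
    _ = _ := by simp

theorem ratio_succ_le {k m n : ℕ} (hkm : k ≤ m) (hn : k ≤ n) :
    (exNum k m (n+1) : ℝ) / ((n+1).choose k : ℝ) ≤ (exNum k m n : ℝ) / (n.choose k : ℝ) := by
  have hpos : (0:ℝ) < (n.choose k : ℝ) := by exact_mod_cast Nat.choose_pos hn
  have hpos1 : (0:ℝ) < ((n+1).choose k : ℝ) := by
    exact_mod_cast Nat.choose_pos (by omega)
  rw [div_le_div_iff₀ hpos1 hpos]
  have h1 := exNum_succ (n := n) hkm
  have h2 : (n+1) * n.choose k = (n+1).choose k * (n + 1 - k) := by
    have h := Nat.choose_mul_succ_eq n k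
    rw [mul_comm] at h
    simpa using h
  have hk : (0:ℝ) < ((n + 1 - k : ℕ) : ℝ) := by
    have : 0 < n + 1 - k := by omega
    exact_mod_cast this
  have h1' : ((n + 1 - k : ℕ) : ℝ) * (exNum k m (n+1) : ℝ) ≤ ((n:ℝ) + 1) * (exNum k m n : ℝ) := by
    exact_mod_cast h1
  have h2' : ((n:ℝ)+1) * (n.choose k : ℝ) = ((n+1).choose k : ℝ) * ((n + 1 - k : ℕ) : ℝ) := by
    exact_mod_cast h2
  refine le_of_mul_le_mul_left ?_ hk
  calc ((n + 1 - k : ℕ) : ℝ) * ((exNum k m (n+1) : ℝ) * (n.choose k : ℝ))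
      = (((n + 1 - k : ℕ) : ℝ) * (exNum k m (n+1) : ℝ)) * (n.choose k : ℝ) := by ring
    _ ≤ (((n:ℝ) + 1) * (exNum k m n : ℝ)) * (n.choose k : ℝ) :=
        mul_le_mul_of_nonneg_right h1' hpos.le
    _ = (((n:ℝ)+1) * (n.choose k : ℝ)) * (exNum k m n : ℝ) := by ring
    _ = (((n+1).choose k : ℝ) * ((n + 1 - k : ℕ) : ℝ)) * (exNum k m n : ℝ) := by rw [h2']
    _ = ((n + 1 - k : ℕ) : ℝ) * ((exNum k m n : ℝ) * ((n+1).choose k : ℝ)) := by ring

theorem ratio_antitone {k m : ℕ} (hkm : k ≤ m) {a b : ℕ} (ha : k ≤ a) (hab : a ≤ b) :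
    (exNum k m b : ℝ) / (b.choose k : ℝ) ≤ (exNum k m a : ℝ) / (a.choose k : ℝ) := by
  induction b, hab using Nat.le_induction with
  | base => exact le_rfl
  | succ b hab ih => exact (ratio_succ_le hkm (ha.trans hab)).trans ih

/-- The limit defining `turanDensity` exists. -/
theorem tendsto_turanDensity {k m : ℕ} (hkm : k ≤ m) :
    Tendsto (fun n : ℕ => (exNum k m n : ℝ) / (n.choose k : ℝ)) atTop
      (𝓝 (turanDensity k m)) := by
  have hanti : Antitone (fun n : ℕ => (exNum k m (n + k) : ℝ) / ((n + k).choose k : ℝ)) := by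
    intro a b hab
    exact ratio_antitone hkm (by omega) (by omega)
  have hbdd : BddBelow (Set.range (fun n : ℕ => (exNum k m (n + k) : ℝ) / ((n + k).choose k : ℝ))) := by
    refine ⟨0, ?_⟩
    rintro x ⟨n, rfl⟩
    positivity
  have h := tendsto_atTop_ciInf hanti hbdd
  have h' := (tendsto_add_atTop_iff_nat (f := fun n : ℕ => (exNum k m n : ℝ) / (n.choose k : ℝ)) k).1 h
  exact tendsto_nhds_limUnder ⟨_, h'⟩

/-- The Turan density is at most the ratio at every `n ≥ k`. -/
theorem turanDensity_le_ratio {k m n : ℕ} (hkm : k ≤ m) (hn : k ≤ n) :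
    turanDensity k m ≤ (exNum k m n : ℝ) / (n.choose k : ℝ) := by
  refine le_of_tendsto (tendsto_turanDensity hkm) ?_
  filter_upwards [eventually_ge_atTop n] with b hb
  exact ratio_antitone hkm hn hb

theorem tendsto_choose_ratio (k : ℕ) :
    Tendsto (fun n : ℕ => ((n:ℝ)^k / (k.factorial : ℝ)) / (n.choose k : ℝ)) atTop (𝓝 1) := by
  have hk : (0:ℝ) < (k.factorial : ℝ) := by exact_mod_cast Nat.factorial_pos k
  have h1 : Tendsto (fun n : ℕ => ((n.descFactorial k : ℕ) : ℝ) / (n:ℝ)^k) atTop (𝓝 1) := by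
    induction k with
    | zero => simp
    | succ k ih =>
      have ih' := ih (by exact_mod_cast Nat.factorial_pos k)
      have h2 : Tendsto (fun n : ℕ => (((n - k : ℕ) : ℝ)) / (n:ℝ)) atTop (𝓝 1) := by
        have h3 : Tendsto (fun n : ℕ => (1:ℝ) - (k:ℝ) / (n:ℝ)) atTop (𝓝 (1 - 0)) :=
          tendsto_const_nhds.sub (tendsto_const_div_atTop_nhds_zero_nat (k:ℝ))
        rw [sub_zero] at h3
        refine h3.congr' ?_
        filter_upwards [eventually_ge_atTop (k+1)] with n hn
        have hn0 : (n:ℝ) ≠ 0 := by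
          have : 0 < n := by omega
          exact_mod_cast this.ne'
        rw [Nat.cast_sub (by omega)]
        field_simp
      have h4 := h2.mul ih'
      rw [one_mul] at h4
      refine h4.congr' ?_
      filter_upwards [eventually_ge_atTop 1] with n hn
      have hn0 : (n:ℝ) ≠ 0 := by
        have : 0 < n := by omega
        exact_mod_cast this.ne'
      rw [Nat.descFactorial_succ]
      push_cast
      rw [pow_succ]
      field_simp
  have h5 := h1.inv₀ one_ne_zero
  rw [inv_one] at h5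
  refine h5.congr' ?_
  filter_upwards [eventually_ge_atTop k] with n hn
  rw [inv_div]
  have : ((n.descFactorial k : ℕ) : ℝ) = (k.factorial : ℝ) * (n.choose k : ℝ) := by
    rw [Nat.descFactorial_eq_factorial_mul_choose]; push_cast; ring
  rw [this, div_div]

/-- If every `K_m^k`-free `k`-graph on `n` vertices has at most `c * n^k / k!` edges
(for all large `n`), then `π(K_m^k) ≤ c`. -/
theorem turanDensity_le_of_pow {k m : ℕ} (hkm : k ≤ m) {c : ℝ}
    (h : ∀ᶠ n : ℕ in atTop, ∀ G : Finset (Finset (Fin n)), IsKGraph k n G → CompleteFree k m n G →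
      (G.card : ℝ) ≤ c * ((n:ℝ)^k / (k.factorial : ℝ))) : turanDensity k m ≤ c := by
  have h1 := (tendsto_choose_ratio k).const_mul c
  rw [mul_one] at h1
  refine le_of_tendsto_of_tendsto (tendsto_turanDensity hkm) h1 ?_
  filter_upwards [h, eventually_ge_atTop k] with n hn hnk
  obtain ⟨G, g1, g2, g3⟩ := exists_exNum (n := n) hkm
  have h2 := hn G g1 g2
  rw [g3] at h2
  have hpos : (0:ℝ) < (n.choose k : ℝ) := by exact_mod_cast Nat.choose_pos hnk
  rw [mul_div_assoc', div_le_div_iff_of_pos_right hpos]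
  exact h2

/-- If every `K_m^k`-free `k`-graph on `n` vertices has at most `c * C(n,k)` edges
(for all large `n`), then `π(K_m^k) ≤ c`. -/
theorem turanDensity_le_of_choose {k m : ℕ} (hkm : k ≤ m) {c : ℝ}
    (h : ∀ᶠ n : ℕ in atTop, ∀ G : Finset (Finset (Fin n)), IsKGraph k n G → CompleteFree k m n G →
      (G.card : ℝ) ≤ c * (n.choose k : ℝ)) : turanDensity k m ≤ c := by
  refine le_of_tendsto (tendsto_turanDensity hkm) ?_
  filter_upwards [h, eventually_ge_atTop k] with n hn hnk
  obtain ⟨G, g1, g2, g3⟩ := exists_exNum (n := n) hkm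
  have h2 := hn G g1 g2
  rw [g3] at h2
  have hpos : (0:ℝ) < (n.choose k : ℝ) := by exact_mod_cast Nat.choose_pos hnk
  rw [div_le_iff₀ hpos]
  exact h2

/-- If for infinitely many `n` there is a `K_m^k`-free `k`-graph on `n` vertices with at least
`c * C(n,k)` edges, then `π(K_m^k) ≥ c`. -/
theorem le_turanDensity_of_frequently {k m : ℕ} (hkm : k ≤ m) {c : ℝ}
    (h : ∃ᶠ n : ℕ in atTop, ∃ G : Finset (Finset (Fin n)), IsKGraph k n G ∧ CompleteFree k m n G ∧
      c * (n.choose k : ℝ) ≤ (G.card : ℝ)) : c ≤ turanDensity k m := by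
  refine ge_of_tendsto_of_frequently (tendsto_turanDensity hkm) ?_
  refine (h.and_eventually (eventually_ge_atTop k)).mono ?_
  rintro n ⟨⟨G, g1, g2, g3⟩, hnk⟩
  have hpos : (0:ℝ) < (n.choose k : ℝ) := by exact_mod_cast Nat.choose_pos hnk
  rw [le_div_iff₀ hpos]
  refine g3.trans ?_
  exact_mod_cast card_le_exNum g1 g2

end Pool.Agent.Helper1.Turan
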