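import Mathlib

namespace Pool.Agent.Helper1.TuranB

/-- first polynomial inequality -/
theorem poly_C2 {r : ℝ} (hr : 3 ≤ r) :
    4 * r * (r + 6) ^ 2 * (2 * r + 15) * (10 * r ^ 2 + 88 * r + 183) * (r - 2) ≤
      5 * (4 * r ^ 3 + 44 * r ^ 2 + 84 * r - 225) ^ 2 * (r + 5) := by
  obtain ⟨x, hx, rfl⟩ : ∃ x : ℝ, 0 ≤ x ∧ r = x + 3 := ⟨r - 3, by linarith, by ring⟩
  have h : 5 * (4 * (x + 3) ^ 3 + 44 * (x + 3) ^ 2 + 84 * (x + 3) - 225) ^ 2 * ((x + 3) + 5) -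
      4 * (x + 3) * ((x + 3) + 6) ^ 2 * (2 * (x + 3) + 15) *
        (10 * (x + 3) ^ 2 + 88 * (x + 3) + 183) * ((x + 3) - 2) =
      (317196 - 335043 * x + 285336 * x ^ 2) + 166344 * x ^ 3 + 28852 * x ^ 4 + 2104 * x ^ 5
        + 56 * x ^ 6 := by ring
  have h2 : 0 ≤ 317196 - 335043 * x + 285336 * x ^ 2 := by
    nlinarith [sq_nonneg (x - 1 / 2), sq_nonneg x]
  have h3 : 0 ≤ (317196 - 335043 * x + 285336 * x ^ 2) + 166344 * x ^ 3 + 28852 * x ^ 4
      + 2104 * x ^ 5 + 56 * x ^ 6 := by positivity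
  linarith

/-- second polynomial inequality -/
theorem poly_C1 {r : ℝ} (hr : 3 ≤ r) :
    (r - 1) * 5 * (r + 5) * (2 * r + 15) ^ 2 * 5 * r ^ 7 * (r + 5) ^ 2 *
        (3 * r ^ 3 + 13 * r ^ 2 - 8 * r + 24) +
      (r - 1) * 2 * (r + 6) * (r ^ 3 + 5 * r ^ 2 + r - 2) ^ 3 * 80 * (r + 6) ^ 2 *
        (4 * r ^ 3 + 20 * r ^ 2 - 5 * r + 10) ≤
      (2 * r + 15) * (10 * r ^ 2 + 88 * r + 183) * 4 * r ^ 5 * (r + 5) ^ 2 *
        (3 * r ^ 3 + 13 * r ^ 2 - 8 * r + 24) * (4 * r ^ 3 + 20 * r ^ 2 - 5 * r + 10) := by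
  obtain ⟨x, hx, rfl⟩ : ∃ x : ℝ, 0 ≤ x ∧ r = x + 3 := ⟨r - 3, by linarith, by ring⟩
  rw [← sub_nonneg]
  ring_nf
  positivity

/-- third polynomial inequality -/
theorem poly_C3 {r : ℝ} (hr : 3 ≤ r) :
    4 * r ^ 2 * (r + 6) ^ 3 * (r - 2) ≤
      (4 * r ^ 3 + 44 * r ^ 2 + 84 * r - 225) * (3 * r ^ 3 + 13 * r ^ 2 - 8 * r + 24) := by
  obtain ⟨x, hx, rfl⟩ : ∃ x : ℝ, 0 ≤ x ∧ r = x + 3 := ⟨r - 3, by linarith, by ring⟩
  rw [← sub_nonneg]
  ring_nf
  positivity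

theorem numeric_main {r t D ν : ℝ} (hr : 3 ≤ r) (ht1 : t ≤ 1) (hD : 0 ≤ D) (hν : 0 ≤ ν)
    (hstar : (r - 1) * ν + r * D ≤ (r * t - 1) * (1 - t))
    (havg : ∀ τ K : ℝ, t < τ → t < K → 0 ≤ t - D / (4 * (τ - t)) →
      0 ≤ (t - D / (4 * (τ - t))) ^ 2 - τ ^ 2 * t →
      ((t - D / (4 * (τ - t))) ^ 2 - τ ^ 2 * t) ^ 2 ≤
        τ * ν * (1 + K + τ) + τ ^ 2 * D / (4 * (K - t))) :
    1 / r + (r - 2) / ((r + 5) * r ^ 3) ≤ t := by
  by_contra hlt
  push Not at hlt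
  have hr0 : 0 < r := by linarith
  set p : ℝ := 1 / r with hp
  set g : ℝ := (r - 2) / ((r + 5) * r ^ 3) with hg
  have hp0 : 0 < p := by positivity
  have hp3 : p ≤ 1 / 3 := by
    rw [hp]; exact one_div_le_one_div_of_le (by norm_num) hr
  have hg0 : 0 < g := by
    rw [hg]; exact div_pos (by linarith) (by positivity)
  have hg1 : g < 1 / 3 := by
    rw [hg, div_lt_div_iff₀ (by positivity) (by norm_num)]
    have : (27 : ℝ) ≤ r ^ 3 := by nlinarith [sq_nonneg (r - 3), sq_nonneg r]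
    nlinarith
  have ht1' : t < 1 := by linarith
  have hrp : r * p = 1 := by rw [hp]; field_simp
  -- `p ≤ t`
  have htp : p ≤ t := by
    by_contra hc
    push Not at hc
    have h1 : r * t - 1 < 0 := by
      have := mul_lt_mul_of_pos_left hc hr0
      rw [hrp] at this; linarith
    have h2 : 0 ≤ (r - 1) * ν + r * D := by
      have : 0 ≤ (r - 1) * ν := mul_nonneg (by linarith) hν
      have : 0 ≤ r * D := mul_nonneg hr0.le hD
      linarith
    have h3 : (r * t - 1) * (1 - t) < 0 := mul_neg_of_neg_of_pos h1 (by linarith)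
    linarith
  have ht0 : 0 < t := by linarith
  -- the budget
  have hrt0 : 0 ≤ r * t - 1 := by
    have := mul_le_mul_of_nonneg_left htp hr0.le
    rw [hrp] at this; linarith
  have hrt1 : r * t - 1 < r * g := by
    have := mul_lt_mul_of_pos_left hlt hr0
    rw [mul_add, hrp] at this; linarith
  have hbud : (r - 1) * ν + r * D < (r - 1) * g := by
    have h1 : (r * t - 1) * (1 - t) ≤ (r * t - 1) * (1 - p) :=
      mul_le_mul_of_nonneg_left (by linarith) hrt0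
    have h2 : (r * t - 1) * (1 - p) < r * g * (1 - p) :=
      mul_lt_mul_of_pos_right hrt1 (by linarith)
    have h3 : r * g * (1 - p) = (r - 1) * g := by
      calc r * g * (1 - p) = (r - r * p) * g := by ring
        _ = (r - 1) * g := by rw [hrp]
    linarith
  have hDg : D < g := by
    have h1 : r * D < r * g := by
      have : 0 ≤ (r - 1) * ν := mul_nonneg (by linarith) hν
      nlinarith
    exact lt_of_mul_lt_mul_left h1 hr0.le
  set τ : ℝ := (2 * r + 15) / (2 * r * (r + 6)) with hτ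
  set K : ℝ := 9 / (5 * r) with hK
  have hA : 0 < 3 * r ^ 3 + 13 * r ^ 2 - 8 * r + 24 := by nlinarith [sq_nonneg r, pow_pos hr0 3]
  have hB : 0 < 4 * r ^ 3 + 20 * r ^ 2 - 5 * r + 10 := by nlinarith [sq_nonneg r, pow_pos hr0 3]
  have ha0 : τ - p - g = (3 * r ^ 3 + 13 * r ^ 2 - 8 * r + 24) /
      (2 * r ^ 3 * (r + 5) * (r + 6)) := by
    rw [hτ, hp, hg]; field_simp; ring
  have hb0 : K - p - g = (4 * r ^ 3 + 20 * r ^ 2 - 5 * r + 10) / (5 * r ^ 3 * (r + 5)) := by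
    rw [hK, hp, hg]; field_simp; ring
  have ha0p : 0 < τ - p - g := by rw [ha0]; exact div_pos hA (by positivity)
  have hb0p : 0 < K - p - g := by rw [hb0]; exact div_pos hB (by positivity)
  have htτ : t < τ := by linarith
  have htK : t < K := by linarith
  have hτ0 : 0 < τ := by linarith
  have hK0 : 0 < K := by linarith
  have haa : τ - p - g < τ - t := by linarith
  have hbb : K - p - g < K - t := by linarith
  have hap : 0 < τ - t := by linarith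
  have hbp : 0 < K - t := by linarith
  -- `y`
  set y : ℝ := D / (2 * (τ - t)) with hy
  have hy0 : 0 ≤ y := div_nonneg hD (by linarith)
  have hM : 0 < 4 * r ^ 3 + 44 * r ^ 2 + 84 * r - 225 := by nlinarith [sq_nonneg r, pow_pos hr0 3]
  have hpτ : p - τ ^ 2 = (4 * r ^ 3 + 44 * r ^ 2 + 84 * r - 225) / (4 * r ^ 2 * (r + 6) ^ 2) := by
    rw [hτ, hp]; field_simp; ring
  have hpτ0 : 0 < p - τ ^ 2 := by rw [hpτ]; exact div_pos hM (by positivity)
  have hy1 : y ≤ p - τ ^ 2 := by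
    calc y ≤ g / (2 * (τ - p - g)) := by
          rw [hy]
          exact div_le_div₀ hg0.le hDg.le (by linarith) (by linarith)
      _ = (r - 2) * (r + 6) / (3 * r ^ 3 + 13 * r ^ 2 - 8 * r + 24) := by
          rw [ha0, hg]
          have := hA.ne'
          field_simp
      _ ≤ p - τ ^ 2 := by
          rw [hpτ, div_le_div_iff₀ hA (by positivity)]
          have := poly_C3 hr
          nlinarith [this]
  have hyt : y ≤ t - τ ^ 2 := by linarith
  have hyy : D / (4 * (τ - t)) = y / 2 := by rw [hy]; field_simp; ring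
  have hτt : 0 < t - τ ^ 2 := by linarith
  have hcond1 : 0 ≤ t - D / (4 * (τ - t)) := by
    rw [hyy]; nlinarith [sq_nonneg τ]
  have hW1 : t * (t - τ ^ 2 - y) ≤ (t - D / (4 * (τ - t))) ^ 2 - τ ^ 2 * t := by
    rw [hyy]; nlinarith [sq_nonneg y]
  have hW0 : 0 ≤ t * (t - τ ^ 2 - y) := mul_nonneg ht0.le (by linarith)
  have hcond2 : 0 ≤ (t - D / (4 * (τ - t))) ^ 2 - τ ^ 2 * t := hW0.trans hW1
  have hmain := havg τ K htτ htK hcond1 hcond2
  have hsq : (t * (t - τ ^ 2 - y)) ^ 2 ≤ ((t - D / (4 * (τ - t))) ^ 2 - τ ^ 2 * t) ^ 2 :=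
    pow_le_pow_left₀ hW0 hW1 2
  have hlow : (t * (t - τ ^ 2)) ^ 2 - t ^ 3 * (2 * y) ≤ (t * (t - τ ^ 2 - y)) ^ 2 := by
    have e : (t * (t - τ ^ 2 - y)) ^ 2 - ((t * (t - τ ^ 2)) ^ 2 - t ^ 3 * (2 * y)) =
        t ^ 2 * y ^ 2 + 2 * t ^ 2 * y * τ ^ 2 := by ring
    have : 0 ≤ t ^ 2 * y ^ 2 + 2 * t ^ 2 * y * τ ^ 2 := by positivity
    linarith
  have h2y : 2 * y = D / (τ - t) := by rw [hy]; field_simp
  set Θ : ℝ := τ * (1 + K + τ) with hΘ
  have hΘ0 : 0 < Θ := by positivity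
  have hΘe : Θ = (2 * r + 15) * (10 * r ^ 2 + 88 * r + 183) / (20 * r ^ 2 * (r + 6) ^ 2) := by
    rw [hΘ, hτ, hK]; field_simp; ring
  -- coefficient of `D`
  have hcoef : (r - 1) / r * (τ ^ 2 / (4 * (K - t)) + t ^ 3 / (τ - t)) ≤ Θ := by
    have e1 : τ ^ 2 / (4 * (K - t)) ≤ τ ^ 2 / (4 * (K - p - g)) :=
      div_le_div_of_nonneg_left (sq_nonneg _) (by linarith) (by linarith)
    have e2 : t ^ 3 / (τ - t) ≤ (p + g) ^ 3 / (τ - p - g) :=
      div_le_div₀ (by positivity) (pow_le_pow_left₀ ht0.le hlt.le 3) ha0p haa.le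
    have e3 : τ ^ 2 / (4 * (K - p - g)) =
        5 * r * (r + 5) * (2 * r + 15) ^ 2 /
          (16 * (r + 6) ^ 2 * (4 * r ^ 3 + 20 * r ^ 2 - 5 * r + 10)) := by
      rw [hb0, hτ]
      have := hB.ne'
      field_simp
      ring
    have e4 : (p + g) ^ 3 / (τ - p - g) =
        2 * (r + 6) * (r ^ 3 + 5 * r ^ 2 + r - 2) ^ 3 /
          ((r + 5) ^ 2 * r ^ 6 * (3 * r ^ 3 + 13 * r ^ 2 - 8 * r + 24)) := by
      have : p + g = (r ^ 3 + 5 * r ^ 2 + r - 2) / ((r + 5) * r ^ 3) := by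
        rw [hp, hg]; field_simp; ring
      rw [ha0, this]
      have := hA.ne'
      field_simp
    have e5 : (r - 1) / r * (5 * r * (r + 5) * (2 * r + 15) ^ 2 /
          (16 * (r + 6) ^ 2 * (4 * r ^ 3 + 20 * r ^ 2 - 5 * r + 10)) +
        2 * (r + 6) * (r ^ 3 + 5 * r ^ 2 + r - 2) ^ 3 /
          ((r + 5) ^ 2 * r ^ 6 * (3 * r ^ 3 + 13 * r ^ 2 - 8 * r + 24))) ≤ Θ := by
      rw [hΘe, ← sub_nonneg]
      have hBn := hB.ne'
      have hAn := hA.ne'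
      have e6 : ∀ A B : ℝ, A ≠ 0 → B ≠ 0 →
          (2 * r + 15) * (10 * r ^ 2 + 88 * r + 183) / (20 * r ^ 2 * (r + 6) ^ 2) -
          (r - 1) / r * (5 * r * (r + 5) * (2 * r + 15) ^ 2 / (16 * (r + 6) ^ 2 * B) +
        2 * (r + 6) * (r ^ 3 + 5 * r ^ 2 + r - 2) ^ 3 / ((r + 5) ^ 2 * r ^ 6 * A)) =
          ((2 * r + 15) * (10 * r ^ 2 + 88 * r + 183) * 4 * r ^ 5 * (r + 5) ^ 2 * A * B -
        ((r - 1) * 5 * (r + 5) * (2 * r + 15) ^ 2 * 5 * r ^ 7 * (r + 5) ^ 2 * A +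
      (r - 1) * 2 * (r + 6) * (r ^ 3 + 5 * r ^ 2 + r - 2) ^ 3 * 80 * (r + 6) ^ 2 * B)) /
        (80 * r ^ 7 * (r + 6) ^ 2 * (r + 5) ^ 2 * A * B) := by
        intro A B hA0 hB0
        field_simp
        ring
      rw [e6 _ _ hAn hBn]
      apply div_nonneg
      · have := poly_C1 hr
        linarith
      · positivity
    calc (r - 1) / r * (τ ^ 2 / (4 * (K - t)) + t ^ 3 / (τ - t))
        ≤ (r - 1) / r * (τ ^ 2 / (4 * (K - p - g)) + (p + g) ^ 3 / (τ - p - g)) :=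
          mul_le_mul_of_nonneg_left (add_le_add e1 e2) (div_nonneg (by linarith) hr0.le)
      _ ≤ Θ := by rw [e3, e4]; exact e5
  -- upper bound
  have hup : (t * (t - τ ^ 2)) ^ 2 < Θ * g := by
    have h1 : (t * (t - τ ^ 2)) ^ 2 ≤
        Θ * ν + D * (τ ^ 2 / (4 * (K - t)) + t ^ 3 / (τ - t)) := by
      have e1 : (t * (t - τ ^ 2)) ^ 2 - t ^ 3 * (D / (τ - t)) ≤
          τ * ν * (1 + K + τ) + τ ^ 2 * D / (4 * (K - t)) := by
        rw [← h2y]; exact hlow.trans (hsq.trans hmain)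
      have e2 : Θ * ν + D * (τ ^ 2 / (4 * (K - t)) + t ^ 3 / (τ - t)) =
          τ * ν * (1 + K + τ) + τ ^ 2 * D / (4 * (K - t)) + t ^ 3 * (D / (τ - t)) := by
        rw [hΘ]; ring
      linarith
    have h2 : τ ^ 2 / (4 * (K - t)) + t ^ 3 / (τ - t) ≤ Θ * (r / (r - 1)) := by
      have hr1 : 0 < r - 1 := by linarith
      have : τ ^ 2 / (4 * (K - t)) + t ^ 3 / (τ - t) =
          ((r - 1) / r * (τ ^ 2 / (4 * (K - t)) + t ^ 3 / (τ - t))) * (r / (r - 1)) := by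
        field_simp
      rw [this]
      exact mul_le_mul_of_nonneg_right hcoef (div_nonneg hr0.le hr1.le)
    have h3 : ν + D * (r / (r - 1)) < g := by
      have hr1 : 0 < r - 1 := by linarith
      have : (r - 1) * (ν + D * (r / (r - 1))) < (r - 1) * g := by
        calc (r - 1) * (ν + D * (r / (r - 1))) = (r - 1) * ν + r * D := by field_simp
          _ < _ := hbud
      exact lt_of_mul_lt_mul_left this hr1.le
    calc (t * (t - τ ^ 2)) ^ 2 ≤ Θ * ν + D * (τ ^ 2 / (4 * (K - t)) + t ^ 3 / (τ - t)) := h1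
      _ ≤ Θ * ν + D * (Θ * (r / (r - 1))) := by
          have := mul_le_mul_of_nonneg_left h2 hD
          linarith
      _ = Θ * (ν + D * (r / (r - 1))) := by ring
      _ < Θ * g := mul_lt_mul_of_pos_left h3 hΘ0
  -- lower bound
  have hlo : Θ * g ≤ (p * (p - τ ^ 2)) ^ 2 := by
    rw [hΘe, hpτ, hp, hg, ← sub_nonneg]
    have e : (1 / r * ((4 * r ^ 3 + 44 * r ^ 2 + 84 * r - 225) / (4 * r ^ 2 * (r + 6) ^ 2))) ^ 2 -
        (2 * r + 15) * (10 * r ^ 2 + 88 * r + 183) / (20 * r ^ 2 * (r + 6) ^ 2) *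
          ((r - 2) / ((r + 5) * r ^ 3)) =
        (5 * (4 * r ^ 3 + 44 * r ^ 2 + 84 * r - 225) ^ 2 * (r + 5) -
        4 * r * (r + 6) ^ 2 * (2 * r + 15) * (10 * r ^ 2 + 88 * r + 183) * (r - 2)) /
          (80 * r ^ 6 * (r + 6) ^ 4 * (r + 5)) := by
      field_simp
      ring
    rw [e]
    apply div_nonneg
    · have := poly_C2 hr
      linarith
    · positivity
  have hmono : (p * (p - τ ^ 2)) ^ 2 ≤ (t * (t - τ ^ 2)) ^ 2 := by
    apply pow_le_pow_left₀ (mul_nonneg hp0.le hpτ0.le)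
    exact mul_le_mul htp (by linarith) hpτ0.le ht0.le
  linarith

end Pool.Agent.Helper1.TuranB
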