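import Pool.Agent.Helper1.BStar
import Pool.Agent.Helper1.BNumeric
import Pool.Agent.Helper1.TuranLimit

namespace Pool.Agent.Helper1.TuranB

open Finset Filter Topology Pool.Agent.Helper1.Turan
open scoped BigOperators

section Count

variable {V : Type*} [Fintype V] [DecidableEq V]

theorem card_image_eq_ge {ι : Type*} [Fintype ι] [DecidableEq ι] (e : Finset V)
    (he : e.card = Fintype.card ι) :
    (Fintype.card ι).factorial ≤ (univ.filter (fun S : ι → V => univ.image S = e)).card := by
  have hc : Fintype.card ι = Fintype.card e := by rw [Fintype.card_coe, he]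
  obtain ⟨e'⟩ : Nonempty (ι ≃ e) := Fintype.card_eq.1 hc
  rw [← Fintype.card_equiv e', ← card_univ]
  refine card_le_card_of_injOn (fun σ : ι ≃ e => fun i => (σ i : V)) ?_ ?_
  · intro σ _
    simp only [coe_filter, mem_univ, true_and, Set.mem_setOf_eq]
    ext v
    simp only [mem_image, mem_univ, true_and]
    constructor
    · rintro ⟨i, rfl⟩; exact (σ i).2
    · intro hv; exact ⟨σ.symm ⟨v, hv⟩, by simp⟩
  · intro σ _ σ' _ h
    ext i
    exact congrFun h i

theorem card_image_mem_ge {ι : Type*} [Fintype ι] [DecidableEq ι] (G : Finset (Finset V))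
    (hG : ∀ e ∈ G, e.card = Fintype.card ι) :
    G.card * (Fintype.card ι).factorial ≤
      (univ.filter (fun S : ι → V => univ.image S ∈ G)).card := by
  have h1 : (univ.filter (fun S : ι → V => univ.image S ∈ G)).card =
      ∑ e ∈ G, (univ.filter (fun S : ι → V => univ.image S = e)).card := by
    rw [← card_biUnion]
    · congr 1
      ext S
      simp
    · intro a _ b _ hab
      rw [Function.onFun, disjoint_left]
      intro S hS hS'
      simp only [mem_filter, mem_univ, true_and] at hS hS'
      exact hab (hS.symm.trans hS')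
  rw [h1, ← smul_eq_mul, ← Finset.sum_const]
  exact Finset.sum_le_sum (fun e he => card_image_eq_ge e (hG e he))

theorem dens_eq_expect {N : ℕ} (G : Finset (Finset V)) :
    (𝔼 c : Fin N → V, dens (lk G c)) =
      𝔼 S : Option (Option (Option (Fin N))) → V, gg G (univ.image S) := by
  rw [expect_option]
  have h1 : ∀ x, (𝔼 f : Option (Option (Fin N)) → V,
      gg G (univ.image (fun o : Option (Option (Option (Fin N))) => o.elim x f))) =
      𝔼 c : Fin N → V, 𝔼 y, cod (lk G c) x y := by
    intro x
    rw [expect_option]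
    have h2 : ∀ y, (𝔼 f : Option (Fin N) → V,
        gg G (univ.image (fun o : Option (Option (Option (Fin N))) =>
          o.elim x (fun o : Option (Option (Fin N)) => o.elim y f)))) =
        𝔼 c : Fin N → V, cod (lk G c) x y := by
      intro y
      rw [expect_option, Finset.expect_comm]
      refine Finset.expect_congr rfl (fun c _ => Finset.expect_congr rfl (fun z _ => ?_))
      unfold lk
      rw [univ_image_option, univ_image_option, univ_image_option]
    simp only [h2]
    rw [Finset.expect_comm]
  simp only [h1]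
  rw [Finset.expect_comm]
  rfl

end Count

section Main

variable {n N : ℕ}

theorem covers {G : Finset (Finset (Fin n))} (h1 : IsKGraph (N + 3) n G)
    (h2 : CompleteFree (N + 3) (N + 4) n G) (S : Idx N → Fin n) : 1 ≤ ∑ i, pp G S i := by
  have hex : ∃ i, pp G S i = 1 := by
    by_cases hinj : Function.Injective S
    · have hc : (univ.image S).card = N + 4 := by
        rw [card_image_of_injective _ hinj, card_univ, card_idx]
      obtain ⟨e, he, hec, heG⟩ := h2 _ hc
      -- `e` misses exactly one element
      have hss : e ⊂ univ.image S := by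
        refine Finset.ssubset_iff_subset_ne.2 ⟨he, ?_⟩
        rintro rfl
        omega
      obtain ⟨v, hv, hve⟩ := Finset.exists_of_ssubset hss
      simp only [mem_image, mem_univ, true_and] at hv
      obtain ⟨i, rfl⟩ := hv
      refine ⟨i, ?_⟩
      have : (univ.erase i).image S = e := by
        symm
        apply Finset.eq_of_subset_of_card_le
        · intro w hw
          have hw' := he hw
          simp only [mem_image, mem_univ, true_and] at hw'
          obtain ⟨k, rfl⟩ := hw'
          refine mem_image.2 ⟨k, ?_, rfl⟩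
          simp only [mem_erase, mem_univ, and_true]
          rintro rfl
          exact hve hw
        · rw [card_image_of_injective _ hinj, card_univ_erase, hec]
      unfold pp gg
      rw [this, if_neg heG]
    · simp only [Function.Injective, not_forall] at hinj
      obtain ⟨a, b, hab, hne⟩ := hinj
      obtain ⟨i, hi⟩ : ((univ.erase a).erase b : Finset (Idx N)).Nonempty := by
        rw [← card_pos, card_erase_of_mem (by simp [Ne.symm hne]), card_univ_erase]; omega
      simp only [mem_erase, mem_univ, and_true] at hi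
      refine ⟨i, ?_⟩
      have hlt : ((univ.erase i).image S).card < N + 3 := by
        have hs : (univ.erase i).image S ⊆ ((univ.erase i).erase a).image S := by
          intro w hw
          obtain ⟨k, hk, rfl⟩ := mem_image.1 hw
          rcases eq_or_ne k a with rfl | hka
          · refine mem_image.2 ⟨b, ?_, hab.symm⟩
            simp only [mem_erase, mem_univ, and_true]
            exact ⟨Ne.symm hne, fun h => hi.1 h.symm⟩
          · exact mem_image.2 ⟨k, mem_erase.2 ⟨hka, hk⟩, rfl⟩
        calc ((univ.erase i).image S).card ≤ (((univ.erase i).erase a).image S).card :=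
              card_le_card hs
          _ ≤ ((univ.erase i).erase a).card := card_image_le
          _ = N + 2 := by
              rw [card_erase_of_mem (by simp [Ne.symm hi.2]), card_univ_erase]; omega
          _ < N + 3 := by omega
      unfold pp gg
      rw [if_neg]
      intro hmem
      have := h1 _ hmem
      omega
  obtain ⟨i, hi⟩ := hex
  calc (1:ℝ) = pp G S i := hi.symm
    _ ≤ ∑ i, pp G S i := Finset.single_le_sum (f := fun i => pp G S i)
        (fun k _ => by rcases pp_zero_or_one G S k with h | h <;> simp only [h] <;> norm_num)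
        (mem_univ i)

/-- The finite form: a bound on the density of non-edges (as tuples). -/
theorem finite_bound [NeZero n] {G : Finset (Finset (Fin n))} (h1 : IsKGraph (N + 3) n G)
    (h2 : CompleteFree (N + 3) (N + 4) n G) :
    1 / ((N : ℝ) + 3) + (((N : ℝ) + 3) - 2) / ((((N : ℝ) + 3) + 5) * ((N : ℝ) + 3) ^ 3) ≤
      𝔼 c : Fin N → Fin n, dens (lk G c) := by
  set t : ℝ := 𝔼 c : Fin N → Fin n, dens (lk G c) with ht
  set D : ℝ := 𝔼 c : Fin N → Fin n, dev (lk G c) t with hD
  set ν : ℝ := 𝔼 c : Fin N → Fin n, cherry (lk G c) with hν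
  have hN : (0:ℝ) ≤ N := Nat.cast_nonneg N
  have hstar := star G (covers h1 h2) ht hD hν
  have ht0 : 0 ≤ t := by
    refine expect_nonneg' (fun c => expect_nonneg' (fun x => expect_nonneg' (fun y => ?_)))
    exact cod_nonneg (lk_sym G c) x y
  have ht1 : t ≤ 1 := by
    refine expect_le_const (fun c => expect_le_const (fun x => expect_le_const (fun y =>
      expect_le_const (fun z => ?_))))
    exact (lk_sym G c).le_one x y z
  have hD0 : 0 ≤ D :=
    expect_nonneg' (fun c => expect_nonneg' (fun x => expect_nonneg' (fun y => sq_nonneg _)))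
  have hν0 : 0 ≤ ν := by
    refine expect_nonneg' (fun c => expect_nonneg' (fun v => expect_nonneg' (fun a =>
      expect_nonneg' (fun b => expect_nonneg' (fun u => ?_)))))
    have s := lk_sym G c
    exact mul_nonneg (mul_nonneg (s.nonneg _ _ _) (s.nonneg _ _ _))
      (by linarith [s.le_one v a b])
  refine numeric_main (by linarith) ht1 hD0 hν0 ?_ ?_
  · calc (((N : ℝ) + 3) - 1) * ν + ((N : ℝ) + 3) * D = ((N : ℝ) + 2) * ν + ((N : ℝ) + 3) * D := by
          ring
      _ ≤ _ := hstar
  · intro τ K hτ hK hc1 hc2
    exact averaged (fun c => lk_sym G c) ht0 hτ hK ht hD hν hc1 hc2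

theorem edge_bound [NeZero n] {G : Finset (Finset (Fin n))} (h1 : IsKGraph (N + 3) n G)
    (h2 : CompleteFree (N + 3) (N + 4) n G) :
    (G.card : ℝ) ≤
      (1 - 1 / ((N : ℝ) + 3) - (((N : ℝ) + 3) - 2) / ((((N : ℝ) + 3) + 5) * ((N : ℝ) + 3) ^ 3)) *
        ((n : ℝ) ^ (N + 3) / ((N + 3).factorial : ℝ)) := by
  have hb := finite_bound h1 h2
  rw [dens_eq_expect] at hb
  set ι := Option (Option (Option (Fin N))) with hι
  have hcard : Fintype.card ι = N + 3 := by simp [hι]
  have hcount := card_image_mem_ge (ι := ι) G (by rw [hcard]; exact h1)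
  rw [hcard] at hcount
  have hn : (0:ℝ) < n := by
    have := NeZero.pos n
    exact_mod_cast this
  have hE : (𝔼 S : ι → Fin n, gg G (univ.image S)) =
      1 - ((univ.filter (fun S : ι → Fin n => univ.image S ∈ G)).card : ℝ) / (n:ℝ) ^ (N + 3) := by
    have e1 : ∀ S : ι → Fin n, gg G (univ.image S) =
        1 - (if univ.image S ∈ G then (1:ℝ) else 0) := by
      intro S; unfold gg; split_ifs <;> norm_num
    simp only [e1]
    rw [Finset.expect_sub_distrib, Fintype.expect_const, Fintype.expect_eq_sum_div_card]
    congr 1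
    rw [Finset.card_filter]
    push_cast
    congr 1
    rw [Fintype.card_fun, hcard]
    simp
  rw [hE] at hb
  have hf : (0:ℝ) < ((N + 3).factorial : ℝ) := by exact_mod_cast Nat.factorial_pos _
  have hpow : (0:ℝ) < (n:ℝ) ^ (N + 3) := by positivity
  have hc' : (G.card : ℝ) * ((N + 3).factorial : ℝ) ≤
      ((univ.filter (fun S : ι → Fin n => univ.image S ∈ G)).card : ℝ) := by exact_mod_cast hcount
  have h3 : ((univ.filter (fun S : ι → Fin n => univ.image S ∈ G)).card : ℝ) / (n:ℝ) ^ (N + 3) ≤
      1 - 1 / ((N : ℝ) + 3) - (((N : ℝ) + 3) - 2) / ((((N : ℝ) + 3) + 5) * ((N : ℝ) + 3) ^ 3) := by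
    linarith
  rw [div_le_iff₀ hpow] at h3
  rw [mul_div_assoc', le_div_iff₀ hf]
  exact hc'.trans h3

theorem density_bound (r : ℕ) (hr : 3 ≤ r) :
    turanDensity r (r + 1) ≤ 1 - 1 / (r : ℝ) - ((r : ℝ) - 2) / (((r : ℝ) + 5) * (r : ℝ) ^ 3) := by
  obtain ⟨N, rfl⟩ : ∃ N, r = N + 3 := ⟨r - 3, by omega⟩
  refine turanDensity_le_of_pow (by omega) ?_
  filter_upwards [eventually_ge_atTop 1] with n hn G g1 g2
  haveI : NeZero n := ⟨by omega⟩
  have := edge_bound g1 g2
  push_cast
  push_cast at this
  exact this

end Main

end Pool.Agent.Helper1.TuranB
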