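import Pool.Agent.Helper1.BLocal

namespace Pool.Agent.Helper1.TuranB

open Finset
open scoped BigOperators

section Exch

variable {ι V : Type*} [Fintype ι] [DecidableEq ι] [Fintype V] [DecidableEq V]

/-- indicator of `T ∉ G` -/
noncomputable def gg (G : Finset (Finset V)) (T : Finset V) : ℝ := if T ∈ G then 0 else 1

/-- indicator of the event that the tuple `S` without its `i`-th entry is not an edge of `G`. -/
noncomputable def pp (G : Finset (Finset V)) (S : ι → V) (i : ι) : ℝ :=
  gg G ((univ.erase i).image S)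

theorem expect_perm (σ : Equiv.Perm ι) (Φ : (ι → V) → ℝ) :
    𝔼 S : ι → V, Φ (S ∘ σ) = 𝔼 S : ι → V, Φ S := by
  refine Fintype.expect_equiv (Equiv.arrowCongr σ.symm (Equiv.refl V)) _ _ (fun S => ?_)
  rfl

theorem erase_image_perm (σ : Equiv.Perm ι) (i : ι) :
    (univ.erase i).image σ = univ.erase (σ i) := by
  ext x
  simp only [mem_image, mem_erase, mem_univ, and_true]
  constructor
  · rintro ⟨a, ha, rfl⟩
    exact fun h => ha (σ.injective h)
  · intro hx
    exact ⟨σ.symm x, fun h => hx (by rw [← h]; simp), by simp⟩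

theorem pp_comp (G : Finset (Finset V)) (σ : Equiv.Perm ι) (S : ι → V) (i : ι) :
    pp G (S ∘ σ) i = pp G S (σ i) := by
  unfold pp
  rw [← image_image, erase_image_perm]

theorem pp_zero_or_one (G : Finset (Finset V)) (S : ι → V) (i : ι) :
    pp G S i = 0 ∨ pp G S i = 1 := by
  unfold pp gg; split_ifs <;> simp

theorem exists_perm3 {a b c i k l : ι} (hab : a ≠ b) (hac : a ≠ c) (hbc : b ≠ c)
    (hik : i ≠ k) (hil : i ≠ l) (hkl : k ≠ l) :
    ∃ σ : Equiv.Perm ι, σ a = i ∧ σ b = k ∧ σ c = l := by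
  set σ1 : Equiv.Perm ι := Equiv.swap a i with h1
  have e1 : σ1 a = i := Equiv.swap_apply_left a i
  have n1 : σ1 b ≠ i := fun h => hab (σ1.injective (e1.trans h.symm))
  have n1c : σ1 c ≠ i := fun h => hac (σ1.injective (e1.trans h.symm))
  have n1bc : σ1 b ≠ σ1 c := fun h => hbc (σ1.injective h)
  set σ2 : Equiv.Perm ι := Equiv.swap (σ1 b) k with h2
  have e2 : σ2 (σ1 b) = k := Equiv.swap_apply_left _ _
  have e2a : σ2 i = i := Equiv.swap_apply_of_ne_of_ne n1.symm hik
  have n2c : σ2 (σ1 c) ≠ i := fun h => n1c (σ2.injective (h.trans e2a.symm))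
  have n2c' : σ2 (σ1 c) ≠ k := fun h => n1bc (σ2.injective (e2.trans h.symm))
  set σ3 : Equiv.Perm ι := Equiv.swap (σ2 (σ1 c)) l with h3
  have e3 : σ3 (σ2 (σ1 c)) = l := Equiv.swap_apply_left _ _
  have e3a : σ3 i = i := Equiv.swap_apply_of_ne_of_ne n2c.symm hil
  have e3b : σ3 k = k := Equiv.swap_apply_of_ne_of_ne n2c'.symm hkl
  refine ⟨σ3 * σ2 * σ1, ?_, ?_, ?_⟩
  · simp [Equiv.Perm.mul_apply, e1, e2a, e3a]
  · simp [Equiv.Perm.mul_apply, e2, e3b]
  · simp [Equiv.Perm.mul_apply, e3]

theorem exch3 (G : Finset (Finset V)) {a b c i k l : ι} (hab : a ≠ b) (hac : a ≠ c) (hbc : b ≠ c)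
    (hik : i ≠ k) (hil : i ≠ l) (hkl : k ≠ l) (Ψ : ℝ → ℝ → ℝ → ℝ) :
    𝔼 S : ι → V, Ψ (pp G S i) (pp G S k) (pp G S l) =
      𝔼 S : ι → V, Ψ (pp G S a) (pp G S b) (pp G S c) := by
  obtain ⟨σ, h1, h2, h3⟩ := exists_perm3 hab hac hbc hik hil hkl
  rw [← expect_perm σ (fun S => Ψ (pp G S a) (pp G S b) (pp G S c))]
  simp only [pp_comp, h1, h2, h3]

/-- averages over functions on `Option α` -/
theorem expect_option {α : Type*} [Fintype α] [DecidableEq α] (Φ : (Option α → V) → ℝ) :
    𝔼 S : Option α → V, Φ S = 𝔼 v : V, 𝔼 f : α → V, Φ (fun o => o.elim v f) := by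
  have h := Fintype.expect_equiv (Equiv.piOptionEquivProd (α := α) (β := fun _ => V)).symm
    (fun q : V × (α → V) => Φ (fun o => o.elim q.1 q.2)) Φ (by
      rintro ⟨v, f⟩
      congr 1
      funext o
      cases o <;> rfl)
  rw [← h]
  exact Finset.expect_product (univ : Finset V) (univ : Finset (α → V))
    (fun q => Φ (fun o => o.elim q.1 q.2))

theorem erase_none_image {α : Type*} [Fintype α] [DecidableEq α] (v : V) (f : α → V) :
    ((univ : Finset (Option α)).erase none).image (fun o => o.elim v f) = univ.image f := by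
  ext x
  simp only [mem_image, mem_erase, mem_univ, and_true, true_and]
  constructor
  · rintro ⟨o, ho, rfl⟩
    cases o with
    | none => exact absurd rfl ho
    | some a => exact ⟨a, rfl⟩
  · rintro ⟨a, rfl⟩
    exact ⟨some a, by simp, rfl⟩

theorem erase_some_image {α : Type*} [Fintype α] [DecidableEq α] (v : V) (f : α → V) (i : α) :
    ((univ : Finset (Option α)).erase (some i)).image (fun o => o.elim v f) =
      insert v ((univ.erase i).image f) := by
  ext x
  simp only [mem_image, mem_erase, mem_univ, and_true, mem_insert]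
  constructor
  · rintro ⟨o, ho, rfl⟩
    cases o with
    | none => left; rfl
    | some a => right; exact ⟨a, fun h => ho (by rw [h]), rfl⟩
  · rintro (rfl | ⟨a, ha, rfl⟩)
    · exact ⟨none, by simp, rfl⟩
    · exact ⟨some a, fun h => ha (Option.some_injective _ h), rfl⟩

theorem univ_image_option {α : Type*} [Fintype α] [DecidableEq α] (v : V) (f : α → V) :
    (univ : Finset (Option α)).image (fun o => o.elim v f) = insert v (univ.image f) := by
  ext x
  simp only [mem_image, mem_univ, true_and, mem_insert]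
  constructor
  · rintro ⟨o, rfl⟩
    cases o with
    | none => left; rfl
    | some a => right; exact ⟨a, rfl⟩
  · rintro (rfl | ⟨a, rfl⟩)
    · exact ⟨none, rfl⟩
    · exact ⟨some a, rfl⟩

end Exch

section Pointwise

variable {ι : Type*} [Fintype ι] [DecidableEq ι]

theorem triple_sum (p : ι → ℝ) (hp : ∀ i, p i = 0 ∨ p i = 1) :
    ∑ i, ∑ k ∈ univ.erase i, ∑ l ∈ (univ.erase i).erase k, p i * p k * (1 - p l) =
      (∑ i, p i) * ((∑ i, p i) - 1) * ((Fintype.card ι : ℝ) - ∑ i, p i) := by
  have h1 : ∀ i, p i * p i = p i := by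
    intro i; rcases hp i with h | h <;> rw [h] <;> norm_num
  set j := ∑ i, p i with hj
  have hl : ∀ i, ∀ k ∈ univ.erase i, ∑ l ∈ (univ.erase i).erase k, p i * p k * (1 - p l) =
      p i * p k * ((Fintype.card ι : ℝ) - j) := by
    intro i k hk
    have hki : k ∈ univ.erase i := hk
    rw [← Finset.mul_sum]
    have e1 := Finset.add_sum_erase (univ.erase i) (fun l => (1 - p l)) hki
    have e2 := Finset.add_sum_erase univ (fun l => (1 - p l)) (mem_univ i)
    have e3 : ∑ l, (1 - p l) = (Fintype.card ι : ℝ) - j := by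
      rw [Finset.sum_sub_distrib]; simp [hj]
    have e4 : ∑ l ∈ (univ.erase i).erase k, (1 - p l) =
        ((Fintype.card ι : ℝ) - j) - (1 - p i) - (1 - p k) := by
      rw [← e3, ← e2, ← e1]; ring
    rw [e4]
    have := h1 i
    have := h1 k
    have e5 : p i * p k * (1 - p i) = 0 := by
      calc p i * p k * (1 - p i) = p k * (p i - p i * p i) := by ring
        _ = 0 := by rw [h1 i]; ring
    have e6 : p i * p k * (1 - p k) = 0 := by
      calc p i * p k * (1 - p k) = p i * (p k - p k * p k) := by ring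
        _ = 0 := by rw [h1 k]; ring
    linear_combination - e5 - e6
  have hk : ∀ i, ∑ k ∈ univ.erase i, ∑ l ∈ (univ.erase i).erase k, p i * p k * (1 - p l) =
      p i * (j - 1) * ((Fintype.card ι : ℝ) - j) := by
    intro i
    rw [Finset.sum_congr rfl (hl i), ← Finset.sum_mul, ← Finset.mul_sum]
    have e2 := Finset.add_sum_erase univ p (mem_univ i)
    have e4 : ∑ k ∈ univ.erase i, p k = j - p i := by rw [hj, ← e2]; ring
    rw [e4]
    have := h1 i
    linear_combination (-((Fintype.card ι : ℝ) - j)) * this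
  rw [Finset.sum_congr rfl (fun i _ => hk i), ← Finset.sum_mul, ← Finset.sum_mul]

theorem double_sum (p : ι → ℝ) (hp : ∀ i, p i = 0 ∨ p i = 1) :
    ∑ i, ∑ k ∈ univ.erase i, p i * p k = (∑ i, p i) * ((∑ i, p i) - 1) := by
  have h1 : ∀ i, p i * p i = p i := by
    intro i; rcases hp i with h | h <;> rw [h] <;> norm_num
  have hk : ∀ i, ∑ k ∈ univ.erase i, p i * p k = p i * ((∑ i, p i) - 1) := by
    intro i
    rw [← Finset.mul_sum]
    have e2 := Finset.add_sum_erase univ p (mem_univ i)
    have e4 : ∑ k ∈ univ.erase i, p k = (∑ i, p i) - p i := by rw [← e2]; ring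
    rw [e4]
    have := h1 i
    linear_combination (-1 : ℝ) * this
  rw [Finset.sum_congr rfl (fun i _ => hk i), ← Finset.sum_mul]

/-- The pointwise inequality on an `(r+1)`-tuple. -/
theorem pointwise_star (p : ι → ℝ) (hp : ∀ i, p i = 0 ∨ p i = 1) {r : ℕ}
    (hr : Fintype.card ι = r + 1) (h1 : 1 ≤ ∑ i, p i) :
    ∑ i, ∑ k ∈ univ.erase i, ∑ l ∈ (univ.erase i).erase k, p i * p k * (1 - p l) ≤
      (r : ℝ) * ((r + 1 : ℝ) * (∑ i, p i) - (r + 1)
        - ∑ i, ∑ k ∈ univ.erase i, p i * p k) := by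
  rw [triple_sum p hp, double_sum p hp, hr]
  obtain ⟨m, hm⟩ : ∃ m : ℕ, ∑ i, p i = m := by
    refine ⟨(univ.filter (fun i => p i = 1)).card, ?_⟩
    rw [Finset.card_filter]
    push_cast
    refine Finset.sum_congr rfl (fun i _ => ?_)
    rcases hp i with h | h <;> simp [h]
  have hm1 : 1 ≤ m := by rw [hm] at h1; exact_mod_cast h1
  have hmr : m ≤ r + 1 := by
    have : ∑ i, p i ≤ ∑ _i : ι, (1:ℝ) := Finset.sum_le_sum (fun i _ => by
      rcases hp i with h | h <;> rw [h] <;> norm_num)
    rw [hm] at this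
    simp only [sum_const, card_univ, hr, nsmul_eq_mul, mul_one] at this
    exact_mod_cast this
  rw [hm]
  rcases Nat.lt_or_ge r m with h | h
  · have : m = r + 1 := by omega
    subst this
    push_cast
    apply le_of_eq; ring
  · have a1 : (1:ℝ) ≤ m := by exact_mod_cast hm1
    have a2 : (m:ℝ) ≤ r := by exact_mod_cast h
    push_cast
    nlinarith [mul_nonneg (mul_nonneg (sub_nonneg.2 a1) (sub_nonneg.2 a2))
      (by linarith : (0:ℝ) ≤ (r:ℝ) + 1 - m)]

end Pointwise

end Pool.Agent.Helper1.TuranB
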