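import Mathlib

namespace Pool.Agent.Helper1.TuranB

open Finset
open scoped BigOperators

theorem sq_expect_le {ι : Type*} [Fintype ι] [Nonempty ι] (f : ι → ℝ) :
    (𝔼 i, f i) ^ 2 ≤ 𝔼 i, (f i) ^ 2 := by
  have h := Finset.expect_mul_sq_le_sq_mul_sq (univ : Finset ι) f (fun _ => (1:ℝ))
  simpa using h

theorem expect_mono {ι : Type*} [Fintype ι] {f g : ι → ℝ} (h : ∀ i, f i ≤ g i) :
    𝔼 i, f i ≤ 𝔼 i, g i := Finset.expect_le_expect (fun i _ => h i)

theorem expect_nonneg' {ι : Type*} [Fintype ι] {f : ι → ℝ} (h : ∀ i, 0 ≤ f i) :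
    0 ≤ 𝔼 i, f i := Finset.expect_nonneg (fun i _ => h i)

theorem expect_le_const {ι : Type*} [Fintype ι] [Nonempty ι] {f : ι → ℝ} {c : ℝ}
    (h : ∀ i, f i ≤ c) : 𝔼 i, f i ≤ c := Finset.expect_le univ_nonempty (fun i _ => h i)

section Local

variable {V : Type*} [Fintype V] [Nonempty V]

/-- codegree -/
noncomputable def cod (F : V → V → V → ℝ) (x y : V) : ℝ := 𝔼 z, F x y z

/-- density of cherries -/
noncomputable def cherry (F : V → V → V → ℝ) : ℝ :=
  𝔼 v, 𝔼 a, 𝔼 b, 𝔼 u, F v a u * F v b u * (1 - F v a b)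

/-- second moment of the codegree around `t` -/
noncomputable def dev (F : V → V → V → ℝ) (t : ℝ) : ℝ := 𝔼 x, 𝔼 y, (cod F x y - t) ^ 2

noncomputable def dens (F : V → V → V → ℝ) : ℝ := 𝔼 x, 𝔼 y, cod F x y

noncomputable def trunc (F : V → V → V → ℝ) (τ : ℝ) (x y : V) : ℝ := min (cod F x y) τ

noncomputable def WW (F : V → V → V → ℝ) (τ : ℝ) : ℝ :=
  𝔼 v, 𝔼 w, 𝔼 a, trunc F τ v a * trunc F τ w a * (1 - F v w a)

noncomputable def phi (F : V → V → V → ℝ) (τ : ℝ) (x y : V) : ℝ :=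
  if cod F x y ≤ τ then 1 else τ / cod F x y

noncomputable def AA (F : V → V → V → ℝ) (τ : ℝ) (v a b : V) : ℝ :=
  phi F τ v a * phi F τ v b * 𝔼 u, F v a u * F v b u

structure Sym01 (F : V → V → V → ℝ) : Prop where
  nonneg : ∀ x y z, 0 ≤ F x y z
  le_one : ∀ x y z, F x y z ≤ 1
  symm1 : ∀ x y z, F x y z = F y x z
  symm2 : ∀ x y z, F x y z = F x z y

variable {F : V → V → V → ℝ} {τ : ℝ}

theorem cod_nonneg (hF : Sym01 F) (x y : V) : 0 ≤ cod F x y :=
  expect_nonneg' (fun z => hF.nonneg x y z)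

theorem phi_nonneg (hF : Sym01 F) (hτ : 0 < τ) (x y : V) : 0 ≤ phi F τ x y := by
  unfold phi; split_ifs
  · exact zero_le_one
  · exact div_nonneg hτ.le (cod_nonneg hF x y)

theorem phi_le_one (hF : Sym01 F) (hτ : 0 < τ) (x y : V) : phi F τ x y ≤ 1 := by
  unfold phi; split_ifs with h
  · exact le_rfl
  · push Not at h
    rw [div_le_one (hτ.trans h)]; exact h.le

theorem phi_mul_cod (hF : Sym01 F) (hτ : 0 < τ) (x y : V) :
    phi F τ x y * cod F x y = trunc F τ x y := by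
  unfold phi trunc; split_ifs with h
  · rw [one_mul, min_eq_left h]
  · push Not at h
    rw [min_eq_right h.le, div_mul_cancel₀ _ (hτ.trans h).ne']

theorem trunc_nonneg (hF : Sym01 F) (hτ : 0 < τ) (x y : V) : 0 ≤ trunc F τ x y :=
  le_min (cod_nonneg hF x y) hτ.le

theorem trunc_le (F : V → V → V → ℝ) (τ : ℝ) (x y : V) : trunc F τ x y ≤ τ := min_le_right _ _

theorem AA_nonneg (hF : Sym01 F) (hτ : 0 < τ) (v a b : V) : 0 ≤ AA F τ v a b :=
  mul_nonneg (mul_nonneg (phi_nonneg hF hτ v a) (phi_nonneg hF hτ v b))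
    (expect_nonneg' (fun u => mul_nonneg (hF.nonneg _ _ _) (hF.nonneg _ _ _)))

theorem AA_le_tau (hF : Sym01 F) (hτ : 0 < τ) (v a b : V) : AA F τ v a b ≤ τ := by
  have h1 : 𝔼 u, F v a u * F v b u ≤ cod F v a :=
    expect_mono (fun u => mul_le_of_le_one_right (hF.nonneg _ _ _) (hF.le_one _ _ _))
  have h0 : 0 ≤ 𝔼 u, F v a u * F v b u :=
    expect_nonneg' (fun u => mul_nonneg (hF.nonneg _ _ _) (hF.nonneg _ _ _))
  calc AA F τ v a b ≤ phi F τ v a * 1 * 𝔼 u, F v a u * F v b u := by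
        unfold AA
        exact mul_le_mul_of_nonneg_right
          (mul_le_mul_of_nonneg_left (phi_le_one hF hτ v b) (phi_nonneg hF hτ v a)) h0
    _ = phi F τ v a * 𝔼 u, F v a u * F v b u := by ring
    _ ≤ phi F τ v a * cod F v a := mul_le_mul_of_nonneg_left h1 (phi_nonneg hF hτ v a)
    _ = trunc F τ v a := phi_mul_cod hF hτ v a
    _ ≤ τ := trunc_le F τ v a

theorem AA_le_expect (hF : Sym01 F) (hτ : 0 < τ) (v a b : V) :
    AA F τ v a b ≤ 𝔼 u, F v a u * F v b u := by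
  have h0 : 0 ≤ 𝔼 u, F v a u * F v b u :=
    expect_nonneg' (fun u => mul_nonneg (hF.nonneg _ _ _) (hF.nonneg _ _ _))
  have h1 : phi F τ v a * phi F τ v b ≤ 1 :=
    mul_le_one₀ (phi_le_one hF hτ v a) (phi_nonneg hF hτ v b) (phi_le_one hF hτ v b)
  unfold AA
  exact mul_le_of_le_one_left h0 h1

/-- the main computation: `W ^ 2` is at most an average of products of `AA`. -/
theorem WW_sq_le (hF : Sym01 F) (hτ : 0 < τ) :
    (WW F τ) ^ 2 ≤ 𝔼 v, 𝔼 w, 𝔼 a, 𝔼 b,
      (1 - F v w a) * (1 - F v w b) * (AA F τ v a b * AA F τ w a b) := by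
  have e1 : WW F τ = 𝔼 v, 𝔼 w, 𝔼 u, 𝔼 u', 𝔼 a,
      (F v a u * phi F τ v a) * (F w a u' * phi F τ w a) * (1 - F v w a) := by
    unfold WW
    refine Finset.expect_congr rfl (fun v _ => Finset.expect_congr rfl (fun w _ => ?_))
    have : ∀ a, trunc F τ v a * trunc F τ w a * (1 - F v w a) =
        𝔼 u, 𝔼 u', (F v a u * phi F τ v a) * (F w a u' * phi F τ w a) * (1 - F v w a) := by
      intro a
      rw [← phi_mul_cod hF hτ, ← phi_mul_cod hF hτ]
      unfold cod
      simp only [Finset.mul_expect, Finset.expect_mul]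
      rw [Finset.expect_comm]
      refine Finset.expect_congr rfl (fun u _ => Finset.expect_congr rfl (fun u' _ => ?_))
      ring
    simp only [this]
    rw [Finset.expect_comm]
    refine Finset.expect_congr rfl (fun u _ => ?_)
    rw [Finset.expect_comm]
  rw [e1]
  refine (sq_expect_le _).trans (expect_mono (fun v => ?_))
  refine (sq_expect_le _).trans (expect_mono (fun w => ?_))
  refine (sq_expect_le _).trans ?_
  refine (expect_mono (fun u => sq_expect_le _)).trans ?_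
  apply le_of_eq
  have e2 : ∀ u u', (𝔼 a, (F v a u * phi F τ v a) * (F w a u' * phi F τ w a) * (1 - F v w a)) ^ 2
      = 𝔼 a, 𝔼 b, (1 - F v w a) * (1 - F v w b) *
        ((phi F τ v a * phi F τ v b * (F v a u * F v b u)) *
          (phi F τ w a * phi F τ w b * (F w a u' * F w b u'))) := by
    intro u u'
    rw [sq, Finset.expect_mul_expect]
    refine Finset.expect_congr rfl (fun a _ => Finset.expect_congr rfl (fun b _ => ?_))
    ring
  simp only [e2]
  -- move `u, u'` inside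
  have e3 : ∀ u, (𝔼 u', 𝔼 a, 𝔼 b, (1 - F v w a) * (1 - F v w b) *
        ((phi F τ v a * phi F τ v b * (F v a u * F v b u)) *
          (phi F τ w a * phi F τ w b * (F w a u' * F w b u')))) =
      𝔼 a, 𝔼 b, 𝔼 u', (1 - F v w a) * (1 - F v w b) *
        ((phi F τ v a * phi F τ v b * (F v a u * F v b u)) *
          (phi F τ w a * phi F τ w b * (F w a u' * F w b u'))) := by
    intro u
    rw [Finset.expect_comm]
    refine Finset.expect_congr rfl (fun a _ => ?_)
    rw [Finset.expect_comm]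
  simp only [e3]
  rw [Finset.expect_comm]
  refine Finset.expect_congr rfl (fun a _ => ?_)
  rw [Finset.expect_comm]
  refine Finset.expect_congr rfl (fun b _ => ?_)
  unfold AA
  rw [Finset.mul_expect, Finset.mul_expect, Finset.expect_mul_expect, Finset.mul_expect]
  refine Finset.expect_congr rfl (fun u _ => ?_)
  rw [Finset.mul_expect]

theorem pointwise_split {P Q A B α β τ : ℝ} (hP0 : 0 ≤ P) (hP1 : P ≤ 1) (hQ0 : 0 ≤ Q) (hQ1 : Q ≤ 1)
    (hA0 : 0 ≤ A) (hA1 : A ≤ τ) (hB0 : 0 ≤ B) (hB1 : B ≤ τ) (hα0 : 0 ≤ α) (hα1 : α ≤ 1)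
    (hβ0 : 0 ≤ β) (hβ1 : β ≤ 1) :
    P * Q * (A * B) ≤ τ * (A * (1 - α)) + τ * (α * ((1 - β) * B)) + τ ^ 2 * (α * β * P) := by
  have hτ : 0 ≤ τ := hA0.trans hA1
  have hPQ0 : 0 ≤ P * Q := mul_nonneg hP0 hQ0
  have hPQ1 : P * Q ≤ 1 := mul_le_one₀ hP1 hQ0 hQ1
  have hAB0 : 0 ≤ A * B := mul_nonneg hA0 hB0
  have h1 : P * Q * (A * B) * (1 - α) ≤ τ * (A * (1 - α)) := by
    have : P * Q * (A * B) ≤ A * τ := by
      calc P * Q * (A * B) ≤ 1 * (A * B) := mul_le_mul_of_nonneg_right hPQ1 hAB0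
        _ = A * B := one_mul _
        _ ≤ A * τ := mul_le_mul_of_nonneg_left hB1 hA0
    calc P * Q * (A * B) * (1 - α) ≤ A * τ * (1 - α) :=
          mul_le_mul_of_nonneg_right this (by linarith)
      _ = _ := by ring
  have h2 : P * Q * (A * B) * (α * (1 - β)) ≤ τ * (α * ((1 - β) * B)) := by
    have : P * Q * (A * B) ≤ τ * B := by
      calc P * Q * (A * B) ≤ 1 * (A * B) := mul_le_mul_of_nonneg_right hPQ1 hAB0
        _ = A * B := one_mul _
        _ ≤ τ * B := mul_le_mul_of_nonneg_right hA1 hB0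
    calc P * Q * (A * B) * (α * (1 - β)) ≤ τ * B * (α * (1 - β)) :=
          mul_le_mul_of_nonneg_right this (mul_nonneg hα0 (by linarith))
      _ = _ := by ring
  have h3 : P * Q * (A * B) * (α * β) ≤ τ ^ 2 * (α * β * P) := by
    have : P * Q * (A * B) ≤ P * τ ^ 2 := by
      calc P * Q * (A * B) ≤ P * 1 * (A * B) :=
            mul_le_mul_of_nonneg_right (mul_le_mul_of_nonneg_left hQ1 hP0) hAB0
        _ = P * (A * B) := by ring
        _ ≤ P * (τ * τ) := mul_le_mul_of_nonneg_left (mul_le_mul hA1 hB1 hB0 hτ) hP0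
        _ = P * τ ^ 2 := by ring
    calc P * Q * (A * B) * (α * β) ≤ P * τ ^ 2 * (α * β) :=
          mul_le_mul_of_nonneg_right this (mul_nonneg hα0 hβ0)
      _ = _ := by ring
  have h4 : P * Q * (A * B) = P * Q * (A * B) * (1 - α) + P * Q * (A * B) * (α * (1 - β))
      + P * Q * (A * B) * (α * β) := by ring
  linarith

theorem local_upper (hF : Sym01 F) (hτ : 0 < τ) {t K : ℝ} (hK0 : 0 ≤ K) (hK : t < K) :
    (WW F τ) ^ 2 ≤ τ * cherry F * (1 + K + τ) + τ ^ 2 * dev F t / (4 * (K - t)) := by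
  have hKt : 0 < K - t := by linarith
  refine (WW_sq_le hF hτ).trans ?_
  have s1 : (𝔼 v, 𝔼 w, 𝔼 a, 𝔼 b,
      (1 - F v w a) * (1 - F v w b) * (AA F τ v a b * AA F τ w a b)) ≤
      𝔼 v, 𝔼 w, 𝔼 a, 𝔼 b, (τ * (AA F τ v a b * (1 - F v a b)) +
        τ * (F v a b * ((1 - F w a b) * AA F τ w a b)) + τ ^ 2 * (F v a b * F w a b * (1 - F v w a))) := by
    refine expect_mono (fun v => expect_mono (fun w => expect_mono (fun a => expect_mono (fun b => ?_))))
    exact pointwise_split (by linarith [hF.le_one v w a]) (by linarith [hF.nonneg v w a])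
      (by linarith [hF.le_one v w b]) (by linarith [hF.nonneg v w b])
      (AA_nonneg hF hτ v a b) (AA_le_tau hF hτ v a b) (AA_nonneg hF hτ w a b) (AA_le_tau hF hτ w a b)
      (hF.nonneg _ _ _) (hF.le_one _ _ _) (hF.nonneg _ _ _) (hF.le_one _ _ _)
  refine s1.trans ?_
  simp only [Finset.expect_add_distrib, ← Finset.mul_expect]
  -- part 1
  have p1 : (𝔼 v, 𝔼 _w : V, 𝔼 a, 𝔼 b, AA F τ v a b * (1 - F v a b)) ≤ cherry F := by
    unfold cherry
    refine expect_mono (fun v => ?_)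
    rw [Fintype.expect_const]
    refine expect_mono (fun a => expect_mono (fun b => ?_))
    rw [← Finset.expect_mul]
    exact mul_le_mul_of_nonneg_right (AA_le_expect hF hτ v a b) (by linarith [hF.le_one v a b])
  -- part 3
  have p3 : (𝔼 v, 𝔼 w, 𝔼 a, 𝔼 b, F v a b * F w a b * (1 - F v w a)) = cherry F := by
    unfold cherry
    have : ∀ v, (𝔼 w, 𝔼 a, 𝔼 b, F v a b * F w a b * (1 - F v w a)) =
        𝔼 a, 𝔼 w, 𝔼 b, F v a b * F w a b * (1 - F v w a) := by
      intro v; rw [Finset.expect_comm]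
    simp only [this]
    rw [Finset.expect_comm]
    refine Finset.expect_congr rfl (fun a _ => Finset.expect_congr rfl (fun v _ =>
      Finset.expect_congr rfl (fun w _ => Finset.expect_congr rfl (fun b _ => ?_))))
    rw [hF.symm1 v a b, hF.symm1 w a b, hF.symm2 v w a, hF.symm1 v a w]
  -- part 2
  have p2 : (𝔼 v, 𝔼 w, 𝔼 a, 𝔼 b, F v a b * ((1 - F w a b) * AA F τ w a b)) ≤
      K * cherry F + τ * dev F t / (4 * (K - t)) := by
    have e : (𝔼 v, 𝔼 w, 𝔼 a, 𝔼 b, F v a b * ((1 - F w a b) * AA F τ w a b)) =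
        𝔼 w, 𝔼 a, 𝔼 b, cod F a b * ((1 - F w a b) * AA F τ w a b) := by
      rw [Finset.expect_comm]
      refine Finset.expect_congr rfl (fun w _ => ?_)
      rw [Finset.expect_comm]
      refine Finset.expect_congr rfl (fun a _ => ?_)
      rw [Finset.expect_comm]
      refine Finset.expect_congr rfl (fun b _ => ?_)
      rw [← Finset.expect_mul]
      congr 1
      unfold cod
      refine Finset.expect_congr rfl (fun v _ => ?_)
      rw [hF.symm1 v a b, hF.symm2 a v b]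
    rw [e]
    have e2 : (𝔼 w, 𝔼 a, 𝔼 b, cod F a b * ((1 - F w a b) * AA F τ w a b)) ≤
        𝔼 w, 𝔼 a, 𝔼 b, (K * 𝔼 u, F w a u * F w b u * (1 - F w a b)) +
          𝔼 _w : V, 𝔼 a, 𝔼 b, τ / (4 * (K - t)) * (cod F a b - t) ^ 2 := by
      rw [← Finset.expect_add_distrib]
      refine expect_mono (fun w => ?_)
      rw [← Finset.expect_add_distrib]
      refine expect_mono (fun a => ?_)
      rw [← Finset.expect_add_distrib]
      refine expect_mono (fun b => ?_)
      have h1 : cod F a b ≤ K + (cod F a b - t) ^ 2 / (4 * (K - t)) := by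
        have : cod F a b - K ≤ (cod F a b - t) ^ 2 / (4 * (K - t)) := by
          rw [le_div_iff₀ (by linarith)]
          nlinarith [sq_nonneg (cod F a b - t - 2 * (K - t))]
        linarith
      have h2 : 0 ≤ (1 - F w a b) * AA F τ w a b :=
        mul_nonneg (by linarith [hF.le_one w a b]) (AA_nonneg hF hτ w a b)
      have h3 : (1 - F w a b) * AA F τ w a b ≤ 𝔼 u, F w a u * F w b u * (1 - F w a b) := by
        rw [← Finset.expect_mul, mul_comm]
        exact mul_le_mul_of_nonneg_right (AA_le_expect hF hτ w a b) (by linarith [hF.le_one w a b])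
      have h4 : (1 - F w a b) * AA F τ w a b ≤ τ := by
        calc (1 - F w a b) * AA F τ w a b ≤ 1 * AA F τ w a b :=
              mul_le_mul_of_nonneg_right (by linarith [hF.nonneg w a b]) (AA_nonneg hF hτ w a b)
          _ ≤ τ := by rw [one_mul]; exact AA_le_tau hF hτ w a b
      calc cod F a b * ((1 - F w a b) * AA F τ w a b)
          ≤ (K + (cod F a b - t) ^ 2 / (4 * (K - t))) * ((1 - F w a b) * AA F τ w a b) :=
            mul_le_mul_of_nonneg_right h1 h2
        _ = K * ((1 - F w a b) * AA F τ w a b) +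
            (cod F a b - t) ^ 2 / (4 * (K - t)) * ((1 - F w a b) * AA F τ w a b) := by ring
        _ ≤ K * (𝔼 u, F w a u * F w b u * (1 - F w a b)) +
            (cod F a b - t) ^ 2 / (4 * (K - t)) * τ := by
            refine add_le_add (mul_le_mul_of_nonneg_left h3 hK0)
              (mul_le_mul_of_nonneg_left h4 ?_)
            exact div_nonneg (sq_nonneg _) (by linarith)
        _ = _ := by ring
    refine e2.trans (le_of_eq ?_)
    rw [Fintype.expect_const]
    simp only [← Finset.mul_expect]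
    unfold cherry dev
    ring
  have hτ2 : 0 ≤ τ ^ 2 := sq_nonneg _
  have q1 := mul_le_mul_of_nonneg_left p1 hτ.le
  have q2 := mul_le_mul_of_nonneg_left p2 hτ.le
  rw [p3]
  refine (add_le_add (add_le_add q1 q2) le_rfl).trans (le_of_eq ?_)
  ring

theorem local_lower (hF : Sym01 F) (hτ : 0 < τ) :
    (𝔼 x, 𝔼 y, trunc F τ x y) ^ 2 - τ ^ 2 * dens F ≤ WW F τ := by
  have e1 : WW F τ = (𝔼 v, 𝔼 w, 𝔼 a, trunc F τ v a * trunc F τ w a) -
      𝔼 v, 𝔼 w, 𝔼 a, trunc F τ v a * trunc F τ w a * F v w a := by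
    unfold WW
    rw [← Finset.expect_sub_distrib]
    refine Finset.expect_congr rfl (fun v _ => ?_)
    rw [← Finset.expect_sub_distrib]
    refine Finset.expect_congr rfl (fun w _ => ?_)
    rw [← Finset.expect_sub_distrib]
    refine Finset.expect_congr rfl (fun a _ => ?_)
    ring
  have e2 : (𝔼 v, 𝔼 w, 𝔼 a, trunc F τ v a * trunc F τ w a) = 𝔼 a, (𝔼 v, trunc F τ v a) ^ 2 := by
    have : ∀ v, (𝔼 w, 𝔼 a, trunc F τ v a * trunc F τ w a) =
        𝔼 a, 𝔼 w, trunc F τ v a * trunc F τ w a := by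
      intro v; rw [Finset.expect_comm]
    simp only [this]
    rw [Finset.expect_comm]
    refine Finset.expect_congr rfl (fun a _ => ?_)
    rw [sq, Finset.expect_mul_expect]
  have e3 : (𝔼 x, 𝔼 y, trunc F τ x y) ^ 2 ≤ 𝔼 a, (𝔼 v, trunc F τ v a) ^ 2 := by
    rw [Finset.expect_comm]
    exact sq_expect_le _
  have e4 : (𝔼 v, 𝔼 w, 𝔼 a, trunc F τ v a * trunc F τ w a * F v w a) ≤ τ ^ 2 * dens F := by
    unfold dens cod
    rw [Finset.mul_expect]
    refine expect_mono (fun v => ?_)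
    rw [Finset.mul_expect]
    refine expect_mono (fun w => ?_)
    rw [Finset.mul_expect]
    refine expect_mono (fun a => ?_)
    refine mul_le_mul_of_nonneg_right ?_ (hF.nonneg _ _ _)
    rw [sq]
    exact mul_le_mul (trunc_le _ _ _ _) (trunc_le _ _ _ _) (trunc_nonneg hF hτ _ _) hτ.le
  rw [e1, e2]
  linarith

theorem local_mean (F : V → V → V → ℝ) {t τ : ℝ} (hτ : t < τ) :
    dens F - dev F t / (4 * (τ - t)) ≤ 𝔼 x, 𝔼 y, trunc F τ x y := by
  have hτt : 0 < 4 * (τ - t) := by linarith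
  unfold dens dev
  rw [Finset.expect_div, ← Finset.expect_sub_distrib]
  refine expect_mono (fun x => ?_)
  rw [Finset.expect_div, ← Finset.expect_sub_distrib]
  refine expect_mono (fun y => ?_)
  unfold trunc
  rw [le_min_iff]
  constructor
  · have : 0 ≤ (cod F x y - t) ^ 2 / (4 * (τ - t)) := div_nonneg (sq_nonneg _) hτt.le
    linarith
  · have : cod F x y - τ ≤ (cod F x y - t) ^ 2 / (4 * (τ - t)) := by
      rw [le_div_iff₀ hτt]
      nlinarith [sq_nonneg (cod F x y - t - 2 * (τ - t))]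
    linarith

end Local

section Averaged

variable {Γ V : Type*} [Fintype Γ] [Nonempty Γ] [Fintype V] [Nonempty V]

/-- Averaged local inequality. -/
theorem averaged {F : Γ → V → V → V → ℝ} (hF : ∀ c, Sym01 (F c)) {t K τ D ν : ℝ}
    (ht0 : 0 ≤ t) (hτ : t < τ) (hK : t < K)
    (ht : t = 𝔼 c, dens (F c)) (hD : D = 𝔼 c, dev (F c) t) (hν : ν = 𝔼 c, cherry (F c))
    (hB : 0 ≤ t - D / (4 * (τ - t)))
    (hW : 0 ≤ (t - D / (4 * (τ - t))) ^ 2 - τ ^ 2 * t) :
    ((t - D / (4 * (τ - t))) ^ 2 - τ ^ 2 * t) ^ 2 ≤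
      τ * ν * (1 + K + τ) + τ ^ 2 * D / (4 * (K - t)) := by
  have hτ0 : 0 < τ := by linarith
  have hK0 : 0 ≤ K := by linarith
  have h1 : (𝔼 c, WW (F c) τ) ^ 2 ≤ τ * ν * (1 + K + τ) + τ ^ 2 * D / (4 * (K - t)) := by
    refine (sq_expect_le _).trans ?_
    refine (expect_mono (fun c => local_upper (hF c) hτ0 hK0 hK)).trans (le_of_eq ?_)
    rw [Finset.expect_add_distrib, hν, hD]
    congr 1
    · rw [Finset.mul_expect, Finset.expect_mul]
    · rw [Finset.mul_expect, Finset.expect_div]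
  have h2 : (t - D / (4 * (τ - t))) ≤ 𝔼 c, 𝔼 x, 𝔼 y, trunc (F c) τ x y := by
    calc t - D / (4 * (τ - t)) = 𝔼 c, (dens (F c) - dev (F c) t / (4 * (τ - t))) := by
          rw [Finset.expect_sub_distrib, ← ht, ← Finset.expect_div, ← hD]
      _ ≤ _ := expect_mono (fun c => local_mean (F c) hτ)
  have h3 : (t - D / (4 * (τ - t))) ^ 2 ≤ 𝔼 c, (𝔼 x, 𝔼 y, trunc (F c) τ x y) ^ 2 := by
    refine le_trans ?_ (sq_expect_le _)
    exact pow_le_pow_left₀ hB h2 2
  have h4 : (t - D / (4 * (τ - t))) ^ 2 - τ ^ 2 * t ≤ 𝔼 c, WW (F c) τ := by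
    calc (t - D / (4 * (τ - t))) ^ 2 - τ ^ 2 * t
        ≤ (𝔼 c, (𝔼 x, 𝔼 y, trunc (F c) τ x y) ^ 2) - τ ^ 2 * t := by linarith
      _ = 𝔼 c, ((𝔼 x, 𝔼 y, trunc (F c) τ x y) ^ 2 - τ ^ 2 * dens (F c)) := by
          rw [Finset.expect_sub_distrib, ← Finset.mul_expect, ← ht]
      _ ≤ _ := expect_mono (fun c => local_lower (hF c) hτ0)
  exact (pow_le_pow_left₀ hW h4 2).trans h1

end Averaged

end Pool.Agent.Helper1.TuranB
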