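import Pool.Agent.Helper1.BGlobal

namespace Pool.Agent.Helper1.TuranB

open Finset
open scoped BigOperators

abbrev Idx (N : ℕ) : Type := Option (Option (Option (Option (Fin N))))

section

variable {V : Type*} [Fintype V] [DecidableEq V] {N : ℕ}

/-- the tuple `(v1, v2, v3, v4, c)` -/
def mk4 (v1 v2 v3 v4 : V) (c : Fin N → V) : Idx N → V :=
  fun o => o.elim v1 (fun o => o.elim v2 (fun o => o.elim v3 (fun o => o.elim v4 c)))

/-- the link function of `c` -/
noncomputable def lk (G : Finset (Finset V)) (c : Fin N → V) (x y z : V) : ℝ :=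
  gg G (insert x (insert y (insert z (univ.image c))))

theorem lk_sym (G : Finset (Finset V)) (c : Fin N → V) : Sym01 (lk G c) where
  nonneg x y z := by unfold lk gg; split_ifs <;> norm_num
  le_one x y z := by unfold lk gg; split_ifs <;> norm_num
  symm1 x y z := by unfold lk; rw [Finset.insert_comm x y]
  symm2 x y z := by unfold lk; rw [Finset.insert_comm y z]

theorem expect_idx (Φ : (Idx N → V) → ℝ) :
    𝔼 S : Idx N → V, Φ S = 𝔼 c : Fin N → V, 𝔼 v1, 𝔼 v2, 𝔼 v3, 𝔼 v4, Φ (mk4 v1 v2 v3 v4 c) := by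
  rw [expect_option]
  have h1 : ∀ v1, (𝔼 f : Option (Option (Option (Fin N))) → V, Φ (fun o => o.elim v1 f)) =
      𝔼 c : Fin N → V, 𝔼 v2, 𝔼 v3, 𝔼 v4, Φ (mk4 v1 v2 v3 v4 c) := by
    intro v1
    rw [expect_option]
    have h2 : ∀ v2, (𝔼 f : Option (Option (Fin N)) → V,
        Φ (fun o => o.elim v1 (fun o => o.elim v2 f))) =
        𝔼 c : Fin N → V, 𝔼 v3, 𝔼 v4, Φ (mk4 v1 v2 v3 v4 c) := by
      intro v2
      rw [expect_option]
      have h3 : ∀ v3, (𝔼 f : Option (Fin N) → V,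
          Φ (fun o => o.elim v1 (fun o => o.elim v2 (fun o => o.elim v3 f)))) =
          𝔼 c : Fin N → V, 𝔼 v4, Φ (mk4 v1 v2 v3 v4 c) := by
        intro v3
        rw [expect_option]
        exact Finset.expect_comm _ _ _
      simp only [h3]
      exact Finset.expect_comm _ _ _
    simp only [h2]
    exact Finset.expect_comm _ _ _
  simp only [h1]
  exact Finset.expect_comm _ _ _

theorem pp_mk4_0 (G : Finset (Finset V)) (v1 v2 v3 v4 : V) (c : Fin N → V) :
    pp G (mk4 v1 v2 v3 v4 c) none = lk G c v2 v3 v4 := by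
  unfold pp mk4 lk
  rw [erase_none_image, univ_image_option, univ_image_option, univ_image_option]

theorem pp_mk4_1 (G : Finset (Finset V)) (v1 v2 v3 v4 : V) (c : Fin N → V) :
    pp G (mk4 v1 v2 v3 v4 c) (some none) = lk G c v1 v3 v4 := by
  unfold pp mk4 lk
  rw [erase_some_image, erase_none_image, univ_image_option, univ_image_option]

theorem pp_mk4_2 (G : Finset (Finset V)) (v1 v2 v3 v4 : V) (c : Fin N → V) :
    pp G (mk4 v1 v2 v3 v4 c) (some (some none)) = lk G c v1 v2 v4 := by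
  unfold pp mk4 lk
  rw [erase_some_image, erase_some_image, erase_none_image, univ_image_option]

variable [Nonempty V]

theorem E1 (G : Finset (Finset V)) :
    𝔼 S : Idx N → V, pp G S none = 𝔼 c : Fin N → V, dens (lk G c) := by
  rw [expect_idx]
  refine Finset.expect_congr rfl (fun c _ => ?_)
  simp only [pp_mk4_0]
  rw [Fintype.expect_const]
  rfl

theorem E2 (G : Finset (Finset V)) :
    𝔼 S : Idx N → V, pp G S none * pp G S (some none) =
      𝔼 c : Fin N → V, 𝔼 x, 𝔼 y, (cod (lk G c) x y) ^ 2 := by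
  rw [expect_idx]
  refine Finset.expect_congr rfl (fun c _ => ?_)
  simp only [pp_mk4_0, pp_mk4_1]
  have h1 : ∀ v1, (𝔼 v2, 𝔼 v3, 𝔼 v4, lk G c v2 v3 v4 * lk G c v1 v3 v4) =
      𝔼 v3, 𝔼 v4, 𝔼 v2, lk G c v2 v3 v4 * lk G c v1 v3 v4 := by
    intro v1
    rw [Finset.expect_comm]
    refine Finset.expect_congr rfl (fun v3 _ => ?_)
    rw [Finset.expect_comm]
  simp only [h1]
  rw [Finset.expect_comm]
  refine Finset.expect_congr rfl (fun v3 _ => ?_)
  rw [Finset.expect_comm]
  refine Finset.expect_congr rfl (fun v4 _ => ?_)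
  unfold cod
  rw [sq, Finset.expect_mul_expect]
  refine Finset.expect_congr rfl (fun v1 _ => Finset.expect_congr rfl (fun v2 _ => ?_))
  rw [(lk_sym G c).symm1 v2 v3 v4, (lk_sym G c).symm2 v3 v2 v4,
    (lk_sym G c).symm1 v1 v3 v4, (lk_sym G c).symm2 v3 v1 v4, mul_comm]

theorem E3 (G : Finset (Finset V)) :
    𝔼 S : Idx N → V, pp G S none * pp G S (some none) * (1 - pp G S (some (some none))) =
      𝔼 c : Fin N → V, cherry (lk G c) := by
  rw [expect_idx]
  refine Finset.expect_congr rfl (fun c _ => ?_)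
  simp only [pp_mk4_0, pp_mk4_1, pp_mk4_2]
  unfold cherry
  -- target order: v4, v2, v1, v3
  have h1 : ∀ v1, (𝔼 v2, 𝔼 v3, 𝔼 v4, lk G c v2 v3 v4 * lk G c v1 v3 v4 * (1 - lk G c v1 v2 v4)) =
      𝔼 v4, 𝔼 v2, 𝔼 v3, lk G c v2 v3 v4 * lk G c v1 v3 v4 * (1 - lk G c v1 v2 v4) := by
    intro v1
    have h2 : ∀ v2, (𝔼 v3, 𝔼 v4, lk G c v2 v3 v4 * lk G c v1 v3 v4 * (1 - lk G c v1 v2 v4)) =
      𝔼 v4, 𝔼 v3, lk G c v2 v3 v4 * lk G c v1 v3 v4 * (1 - lk G c v1 v2 v4) := by
      intro v2; rw [Finset.expect_comm]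
    simp only [h2]
    rw [Finset.expect_comm]
  simp only [h1]
  rw [Finset.expect_comm]
  refine Finset.expect_congr rfl (fun v4 _ => ?_)
  rw [Finset.expect_comm]
  refine Finset.expect_congr rfl (fun v2 _ => Finset.expect_congr rfl (fun v1 _ =>
    Finset.expect_congr rfl (fun v3 _ => ?_)))
  have s := lk_sym G c
  have a1 : lk G c v2 v3 v4 = lk G c v4 v2 v3 := by
    rw [s.symm2 v2 v3 v4, s.symm1 v2 v4 v3]
  have a2 : lk G c v1 v3 v4 = lk G c v4 v1 v3 := by
    rw [s.symm2 v1 v3 v4, s.symm1 v1 v4 v3]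
  have a3 : lk G c v1 v2 v4 = lk G c v4 v2 v1 := by
    rw [s.symm1 v1 v2 v4, s.symm2 v2 v1 v4, s.symm1 v2 v4 v1]
  rw [a1, a2, a3]

theorem dev_expand (G : Finset (Finset V)) {t : ℝ} (ht : t = 𝔼 c : Fin N → V, dens (lk G c)) :
    (𝔼 c : Fin N → V, dev (lk G c) t) =
      (𝔼 c : Fin N → V, 𝔼 x, 𝔼 y, (cod (lk G c) x y) ^ 2) - t ^ 2 := by
  have h : ∀ c : Fin N → V, dev (lk G c) t =
      (𝔼 x, 𝔼 y, (cod (lk G c) x y) ^ 2) - 2 * t * dens (lk G c) + t ^ 2 := by
    intro c
    unfold dev dens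
    have : ∀ x y, (cod (lk G c) x y - t) ^ 2 =
        (cod (lk G c) x y) ^ 2 - 2 * t * cod (lk G c) x y + t ^ 2 := by intro x y; ring
    simp only [this, Finset.expect_add_distrib, Finset.expect_sub_distrib, Fintype.expect_const,
      ← Finset.mul_expect]
  simp only [h, Finset.expect_add_distrib, Finset.expect_sub_distrib, Fintype.expect_const,
      ← Finset.mul_expect]
  rw [← ht]; ring

theorem card_idx (N : ℕ) : Fintype.card (Idx N) = (N + 3) + 1 := by
  simp [Idx]

theorem card_univ_erase (N : ℕ) (i : Idx N) : (univ.erase i).card = N + 3 := by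
  rw [card_erase_of_mem (mem_univ i), card_univ, card_idx]; rfl

/-- The star inequality. -/
theorem star (G : Finset (Finset V))
    (hcov : ∀ S : Idx N → V, 1 ≤ ∑ i, pp G S i) {t D ν : ℝ}
    (ht : t = 𝔼 c : Fin N → V, dens (lk G c)) (hD : D = 𝔼 c : Fin N → V, dev (lk G c) t)
    (hν : ν = 𝔼 c : Fin N → V, cherry (lk G c)) :
    ((N : ℝ) + 2) * ν + ((N : ℝ) + 3) * D ≤ (((N : ℝ) + 3) * t - 1) * (1 - t) := by
  have a0 : (none : Idx N) ≠ some none := by simp
  have a1 : (none : Idx N) ≠ some (some none) := by simp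
  have a2 : (some none : Idx N) ≠ some (some none) := by simp
  -- third vertices different from given two exist
  have ex3 : ∀ i k : Idx N, i ≠ k → ∃ l : Idx N, i ≠ l ∧ k ≠ l := by
    intro i k hik
    have : ((univ.erase i).erase k).Nonempty := by
      rw [← card_pos, card_erase_of_mem (by simp [hik.symm]), card_univ_erase]; omega
    obtain ⟨l, hl⟩ := this
    simp only [mem_erase, mem_univ, and_true] at hl
    exact ⟨l, hl.2.symm, hl.1.symm⟩
  have hE1 : ∀ i : Idx N, 𝔼 S : Idx N → V, pp G S i = t := by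
    intro i
    obtain ⟨k, hk⟩ : ∃ k : Idx N, i ≠ k := by
      rcases eq_or_ne i none with h | h
      · exact ⟨some none, by rw [h]; simp⟩
      · exact ⟨none, h⟩
    obtain ⟨l, hl1, hl2⟩ := ex3 i k hk
    rw [ht, ← E1]
    exact exch3 G a0 a1 a2 hk hl1 hl2 (fun x _ _ => x)
  have hE2 : ∀ i k : Idx N, i ≠ k → 𝔼 S : Idx N → V, pp G S i * pp G S k = D + t ^ 2 := by
    intro i k hk
    obtain ⟨l, hl1, hl2⟩ := ex3 i k hk
    rw [hD, dev_expand G ht, sub_add_cancel, ← E2]
    exact exch3 G a0 a1 a2 hk hl1 hl2 (fun x y _ => x * y)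
  have hE3 : ∀ i k l : Idx N, i ≠ k → i ≠ l → k ≠ l →
      𝔼 S : Idx N → V, pp G S i * pp G S k * (1 - pp G S l) = ν := by
    intro i k l h1 h2 h3
    rw [hν, ← E3]
    exact exch3 G a0 a1 a2 h1 h2 h3 (fun x y z => x * y * (1 - z))
  have hpt := expect_mono (fun S : Idx N → V =>
    pointwise_star (pp G S) (pp_zero_or_one G S) (card_idx N) (hcov S))
  -- left-hand side
  have hL : (𝔼 S : Idx N → V, ∑ i, ∑ k ∈ univ.erase i, ∑ l ∈ (univ.erase i).erase k,
      pp G S i * pp G S k * (1 - pp G S l)) = ((N:ℝ)+4) * ((N:ℝ)+3) * ((N:ℝ)+2) * ν := by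
    rw [Finset.expect_sum_comm]
    have : ∀ i : Idx N, (𝔼 S : Idx N → V, ∑ k ∈ univ.erase i, ∑ l ∈ (univ.erase i).erase k,
      pp G S i * pp G S k * (1 - pp G S l)) = ((N:ℝ)+3) * ((N:ℝ)+2) * ν := by
      intro i
      rw [Finset.expect_sum_comm]
      have : ∀ k ∈ univ.erase i, (𝔼 S : Idx N → V, ∑ l ∈ (univ.erase i).erase k,
        pp G S i * pp G S k * (1 - pp G S l)) = ((N:ℝ)+2) * ν := by
        intro k hk
        rw [Finset.expect_sum_comm]
        have : ∀ l ∈ (univ.erase i).erase k, (𝔼 S : Idx N → V,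
          pp G S i * pp G S k * (1 - pp G S l)) = ν := by
          intro l hl
          simp only [mem_erase, mem_univ, and_true] at hl hk
          exact hE3 i k l hk.symm hl.2.symm hl.1.symm
        rw [Finset.sum_congr rfl this, Finset.sum_const, card_erase_of_mem hk, card_univ_erase]
        simp only [nsmul_eq_mul]
        push_cast
        ring
      rw [Finset.sum_congr rfl this, Finset.sum_const, card_univ_erase]
      simp only [nsmul_eq_mul]
      push_cast
      ring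
    rw [Finset.sum_congr rfl (fun i _ => this i), Finset.sum_const, card_univ, card_idx]
    simp only [nsmul_eq_mul]
    push_cast
    ring
  have hS1 : (𝔼 S : Idx N → V, ∑ i, pp G S i) = ((N:ℝ)+4) * t := by
    rw [Finset.expect_sum_comm, Finset.sum_congr rfl (fun i _ => hE1 i), Finset.sum_const,
      card_univ, card_idx]
    simp only [nsmul_eq_mul]
    push_cast
    ring
  have hS2 : (𝔼 S : Idx N → V, ∑ i, ∑ k ∈ univ.erase i, pp G S i * pp G S k) =
      ((N:ℝ)+4) * ((N:ℝ)+3) * (D + t ^ 2) := by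
    rw [Finset.expect_sum_comm]
    have : ∀ i : Idx N, (𝔼 S : Idx N → V, ∑ k ∈ univ.erase i, pp G S i * pp G S k) =
        ((N:ℝ)+3) * (D + t ^ 2) := by
      intro i
      rw [Finset.expect_sum_comm]
      have : ∀ k ∈ univ.erase i, (𝔼 S : Idx N → V, pp G S i * pp G S k) = D + t ^ 2 := by
        intro k hk
        simp only [mem_erase, mem_univ, and_true] at hk
        exact hE2 i k hk.symm
      rw [Finset.sum_congr rfl this, Finset.sum_const, card_univ_erase]
      simp only [nsmul_eq_mul]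
      push_cast
      ring
    rw [Finset.sum_congr rfl (fun i _ => this i), Finset.sum_const, card_univ, card_idx]
    simp only [nsmul_eq_mul]
    push_cast
    ring
  rw [hL, ← Finset.mul_expect, Finset.expect_sub_distrib, Finset.expect_sub_distrib,
    ← Finset.mul_expect, hS1, hS2, Fintype.expect_const] at hpt
  push_cast at hpt
  have hN : (0:ℝ) ≤ N := Nat.cast_nonneg N
  have hpos : (0:ℝ) < ((N:ℝ)+4) * ((N:ℝ)+3) := by positivity
  have key : ((N:ℝ)+4) * ((N:ℝ)+3) * (((N : ℝ) + 2) * ν + ((N : ℝ) + 3) * D) ≤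
      ((N:ℝ)+4) * ((N:ℝ)+3) * ((((N : ℝ) + 3) * t - 1) * (1 - t)) := by
    nlinarith [hpt]
  exact le_of_mul_le_mul_left key hpos

end

end Pool.Agent.Helper1.TuranB
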