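import Pool.Agent.Helper1.BFinal

/-- For every `r ≥ 3` the limit defining the Turan density `π(K_{r+1}^r)` exists and
`π(K_{r+1}^r) ≤ 1 - 1/r - (r-2)/((r+5) r^3)`. -/
theorem Pool.Agent.Helper1.TuranB.upperNext (r : ℕ) (hr : 3 ≤ r) :
    Filter.Tendsto
      (fun n : ℕ => (Pool.Agent.Helper1.Turan.exNum r (r + 1) n : ℝ) / (n.choose r : ℝ))
      Filter.atTop (nhds (Pool.Agent.Helper1.Turan.turanDensity r (r + 1))) ∧
    Pool.Agent.Helper1.Turan.turanDensity r (r + 1) ≤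
      1 - 1 / (r : ℝ) - ((r : ℝ) - 2) / (((r : ℝ) + 5) * (r : ℝ) ^ 3) :=
  ⟨Pool.Agent.Helper1.Turan.tendsto_turanDensity (Nat.le_succ r),
    Pool.Agent.Helper1.TuranB.density_bound r hr⟩
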