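import Mathlib

namespace Pool.Agent.Helper1.Turan

/-- `G` is (the edge set of) a `k`-graph with vertex set `Fin n`:
every edge is a set of exactly `k` vertices. -/
def IsKGraph (k n : ℕ) (G : Finset (Finset (Fin n))) : Prop :=
  ∀ e ∈ G, e.card = k

/-- `G` contains no copy of the complete `k`-graph `K_m^k`:
every set of `m` vertices has a `k`-element subset which is not an edge of `G`. -/
def CompleteFree (k m n : ℕ) (G : Finset (Finset (Fin n))) : Prop :=
  ∀ S : Finset (Fin n), S.card = m → ∃ e ⊆ S, e.card = k ∧ e ∉ G

/-- The Turan function `ex(n, K_m^k)`: the largest number of edges of a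
`K_m^k`-free `k`-graph on `n` vertices. -/
noncomputable def exNum (k m n : ℕ) : ℕ :=
  sSup {t : ℕ | ∃ G : Finset (Finset (Fin n)),
    IsKGraph k n G ∧ CompleteFree k m n G ∧ G.card = t}

/-- The Turan density `π(K_m^k) = lim ex(n, K_m^k) / C(n,k)`
(see `tendsto_turanDensity` for the existence of this limit). -/
noncomputable def turanDensity (k m : ℕ) : ℝ :=
  Filter.limUnder Filter.atTop (fun n : ℕ => (exNum k m n : ℝ) / (n.choose k : ℝ))

end Pool.Agent.Helper1.Turan
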